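import Pool.Agent.Helper67.Dil.Product
import Pool.Agent.Helper67.Conv.Antisym

set_option autoImplicit false
set_option linter.unusedSectionVars false
open MeasureTheory SchwartzMap
open scoped RealInnerProductSpace ContDiff

namespace Pool.Agent.Helper67.Dil

open Pool.Agent.Helper67.Conv (Space Config pos Wave dv ee qq chi chi' tt Sep repul qq_add add_ee
  qq_nonneg near_iff sum_sq_orth sg sg_mul_self sep_unique normSq_integrable dv_eq qq_perm)

variable {M K : ℕ}

lemma Phi_orth {a l s : ℝ} (hl : 0 < l) {R : Fin K → Space} (hsep : Sep l R)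
    {b : Fin M → Fin K} (hb : Function.Injective b) (x : Config M) (τ τ' : Equiv.Perm (Fin M))
    (h : τ ≠ τ') : Phi a l s R (b ∘ τ) x = 0 ∨ Phi a l s R (b ∘ τ') x = 0 := by
  by_contra hcon
  rw [not_or] at hcon
  obtain ⟨h1, h2⟩ := hcon
  have : ∃ i, τ i ≠ τ' i := by
    by_contra hc
    push Not at hc
    exact h (Equiv.ext hc)
  obtain ⟨i, hi⟩ := this
  have hne : b (τ i) ≠ b (τ' i) := fun hh => hi (hb hh)
  have h3 := lt_of_Phi_ne hl h1 i
  have h4 := lt_of_Phi_ne hl h2 i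
  simp only [Function.comp_apply] at h3 h4
  have h5 := sep_unique hsep x i h3 hl hne.symm
  linarith

/-- The antisymmetrised function, real version. -/
noncomputable def F0 (a l s : ℝ) (R : Fin K → Space)
    (b : Fin M → Fin K) (x : Config M) : ℝ :=
  ∑ τ : Equiv.Perm (Fin M), sg τ * Phi a l s R (b ∘ τ) x

lemma F0_contDiff {a l s : ℝ} (hs : 0 < s) (R : Fin K → Space) (b : Fin M → Fin K) :
    ContDiff ℝ ∞ (F0 (M := M) a l s R b) := by
  unfold F0
  exact ContDiff.sum fun τ _ => contDiff_const.mul (Phi_contDiff hs R (b ∘ τ))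

lemma F0_support {a l s : ℝ} (hl : 0 < l) (R : Fin K → Space) (b : Fin M → Fin K) :
    HasCompactSupport (F0 (M := M) a l s R b) := by
  have h : ∀ t : Finset (Equiv.Perm (Fin M)), HasCompactSupport (fun x : Config M =>
      ∑ τ ∈ t, sg τ * Phi a l s R (b ∘ τ) x) := by
    intro t
    induction t using Finset.induction_on with
    | empty =>
      simp only [Finset.sum_empty]
      exact HasCompactSupport.zero
    | insert τ t ht ih =>
      simp only [Finset.sum_insert ht]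
      exact ((Phi_support hl R (b ∘ τ)).mul_left).add ih
  exact h Finset.univ

/-- The antisymmetrised function. -/
noncomputable def f0 (a : ℝ) {l s : ℝ} (hl : 0 < l) (hs : 0 < s) (R : Fin K → Space)
    (b : Fin M → Fin K) : 𝓢(Config M, ℂ) :=
  ∑ τ : Equiv.Perm (Fin M), ((sg τ : ℝ) : ℂ) • PhiS a hl hs R (b ∘ τ)

lemma f0_apply (a : ℝ) {l s : ℝ} (hl : 0 < l) (hs : 0 < s) (R : Fin K → Space)
    (b : Fin M → Fin K) (x : Config M) :
    f0 a hl hs R b x = ((F0 a l s R b x : ℝ) : ℂ) := by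
  unfold f0 F0
  rw [SchwartzMap.sum_apply]
  push_cast
  refine Finset.sum_congr rfl fun τ _ => ?_
  simp only [Pi.smul_apply, SchwartzMap.smul_apply, PhiS_apply, smul_eq_mul]

lemma norm_f0 (a : ℝ) {l s : ℝ} (hl : 0 < l) (hs : 0 < s) {R : Fin K → Space} (hsep : Sep l R)
    {b : Fin M → Fin K} (hb : Function.Injective b) (x : Config M) :
    ‖f0 a hl hs R b x‖ ^ 2 = ∑ τ : Equiv.Perm (Fin M), Phi a l s R (b ∘ τ) x ^ 2 := by
  rw [f0_apply, Complex.norm_real, Real.norm_eq_abs, sq_abs]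
  unfold F0
  refine sum_sq_orth _ _ sg_mul_self ?_
  intro τ τ' h
  rcases Phi_orth (a := a) (s := s) hl hsep hb x τ τ' h with h1 | h1
  · rw [h1, zero_mul]
  · rw [h1, mul_zero]

lemma dv_f0 (a : ℝ) {l s : ℝ} (hl : 0 < l) (hs : 0 < s) (R : Fin K → Space)
    (b : Fin M → Fin K) (i : Fin M) (c : Fin 3) (x : Config M) :
    dv (f0 a hl hs R b) (ee i c) x =
      ((∑ τ : Equiv.Perm (Fin M), sg τ * dPhi a l s R (b ∘ τ) i c x : ℝ) : ℂ) := by
  have h1 : ∀ τ : Equiv.Perm (Fin M), HasFDerivAt (Phi a l s R (b ∘ τ))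
      (fderiv ℝ (Phi a l s R (b ∘ τ)) x) x := fun τ =>
    (((Phi_contDiff hs R (b ∘ τ)).differentiable (by simp)) x).hasFDerivAt
  have h2 : HasFDerivAt (F0 a l s R b)
      (∑ τ : Equiv.Perm (Fin M), sg τ • fderiv ℝ (Phi a l s R (b ∘ τ)) x) x := by
    unfold F0
    apply HasFDerivAt.fun_sum
    intro τ _
    exact (h1 τ).const_mul (sg τ)
  have h3 : HasFDerivAt (fun y => f0 a hl hs R b y) (Complex.ofRealCLM.comp
      (∑ τ : Equiv.Perm (Fin M), sg τ • fderiv ℝ (Phi a l s R (b ∘ τ)) x)) x := by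
    have e : (fun y => f0 a hl hs R b y) = fun y =>
        Complex.ofRealCLM (F0 a l s R b y) := by
      funext y
      rw [f0_apply]
      rfl
    rw [e]
    exact Complex.ofRealCLM.hasFDerivAt.comp x h2
  unfold dv
  rw [h3.fderiv, ContinuousLinearMap.comp_apply, ContinuousLinearMap.sum_apply]
  rfl

lemma norm_dv_f0 (a : ℝ) {l s : ℝ} (hl : 0 < l) (hs : 0 < s) {R : Fin K → Space}
    (hsep : Sep l R)
    {b : Fin M → Fin K} (hb : Function.Injective b) (i : Fin M) (c : Fin 3) (x : Config M) :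
    ‖dv (f0 a hl hs R b) (ee i c) x‖ ^ 2 =
      ∑ τ : Equiv.Perm (Fin M), dPhi a l s R (b ∘ τ) i c x ^ 2 := by
  rw [dv_f0, Complex.norm_real, Real.norm_eq_abs, sq_abs]
  refine sum_sq_orth _ _ sg_mul_self ?_
  intro τ τ' h
  rcases Phi_orth (a := a) (s := s) hl hsep hb x τ τ' h with h1 | h1
  · rw [dPhi_zero i c h1, zero_mul]
  · rw [dPhi_zero i c h1, mul_zero]

lemma Phi_perm (a l s : ℝ) (R : Fin K → Space) (b : Fin M → Fin K) (x : Config M)
    (τ : Equiv.Perm (Fin M)) :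
    Phi a l s R b (WithLp.toLp 2 (fun p => WithLp.ofLp x (τ p.1, p.2)) : Config M) =
      Phi a l s R (b ∘ ⇑(τ⁻¹ : Equiv.Perm (Fin M))) x := by
  unfold Phi
  simp only [qq_perm]
  rw [← Equiv.prod_comp τ (fun i => uu a l s (qq x i (R ((b ∘ (τ⁻¹ : Equiv.Perm (Fin M))) i))))]
  refine Finset.prod_congr rfl fun i _ => ?_
  simp

lemma F0_perm (a l s : ℝ) (R : Fin K → Space) (b : Fin M → Fin K) (x : Config M)
    (τ : Equiv.Perm (Fin M)) :
    F0 a l s R b (WithLp.toLp 2 (fun p => WithLp.ofLp x (τ p.1, p.2)) : Config M) =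
        sg τ * F0 a l s R b x := by
  unfold F0
  rw [← Equiv.sum_comp (Equiv.mulRight τ), Finset.mul_sum]
  refine Finset.sum_congr rfl fun ρ _ => ?_
  rw [Phi_perm]
  have e1 : (b ∘ ((Equiv.mulRight τ) ρ : Equiv.Perm (Fin M))) ∘
      (τ⁻¹ : Equiv.Perm (Fin M)) = b ∘ ρ := by
    funext i
    simp
  rw [e1]
  have e2 : sg ((Equiv.mulRight τ) ρ) = sg τ * sg ρ := by
    unfold sg
    rw [Equiv.coe_mulRight, Equiv.Perm.sign_mul]
    push_cast
    ring
  rw [e2]
  ring

lemma f0_normSq (a : ℝ) {l s : ℝ} (hl : 0 < l) (hs : 0 < s) {R : Fin K → Space}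
    (hsep : Sep l R) {b : Fin M → Fin K} (hb : Function.Injective b) :
    ∫ x : Config M, ‖f0 a hl hs R b x‖ ^ 2 =
      ∑ τ : Equiv.Perm (Fin M), ∫ x : Config M, Phi a l s R (b ∘ τ) x ^ 2 := by
  rw [← integral_finsetSum]
  · congr 1
    funext x
    rw [norm_f0 a hl hs hsep hb]
  · intro τ _
    have := normSq_integrable (PhiS a hl hs R (b ∘ τ))
    simpa only [norm_PhiS] using this

lemma f0_comp (a : ℝ) {l s : ℝ} (hl : 0 < l) (hs : 0 < s) (z : Fin K → ℝ) {R : Fin K → Space}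
    (hsep : Sep l R) {b : Fin M → Fin K} (hb : Function.Injective b) :
    comp z R (f0 a hl hs R b) = ∑ τ : Equiv.Perm (Fin M), ((∑ i, ∑ c, ∫ x : Config M,
        dPhi a l s R (b ∘ τ) i c x ^ 2) +
        ∫ x : Config M, pot z R x * Phi a l s R (b ∘ τ) x ^ 2) := by
  have hd : ∀ (τ : Equiv.Perm (Fin M)) i c, Integrable (fun x : Config M =>
      dPhi a l s R (b ∘ τ) i c x ^ 2) := by
    intro τ i c
    have := dPhi_sq_integrable (a := a) hl hs R (b ∘ τ) i c
    simpa only [sq] using this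
  have hv : ∀ (τ : Equiv.Perm (Fin M)), Integrable (fun x : Config M =>
      pot z R x * Phi a l s R (b ∘ τ) x ^ 2) := by
    intro τ
    have := pot_int z R (PhiS a hl hs R (b ∘ τ))
    simpa only [norm_PhiS] using this
  have e1 : ∀ i c, ∫ x : Config M, ‖dv (f0 a hl hs R b) (ee i c) x‖ ^ 2 =
      ∑ τ : Equiv.Perm (Fin M), ∫ x : Config M, dPhi a l s R (b ∘ τ) i c x ^ 2 := by
    intro i c
    rw [← integral_finsetSum _ fun τ _ => hd τ i c]
    congr 1
    funext x
    rw [norm_dv_f0 a hl hs hsep hb]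
  have e2 : ∫ x : Config M, pot z R x * ‖f0 a hl hs R b x‖ ^ 2 =
      ∑ τ : Equiv.Perm (Fin M), ∫ x : Config M, pot z R x * Phi a l s R (b ∘ τ) x ^ 2 := by
    rw [← integral_finsetSum _ fun τ _ => hv τ]
    congr 1
    funext x
    rw [norm_f0 a hl hs hsep hb, Finset.mul_sum]
  unfold comp
  rw [e2, Finset.sum_add_distrib]
  simp_rw [e1]
  congr 1
  rw [Finset.sum_comm (s := (Finset.univ : Finset (Equiv.Perm (Fin M))))]
  refine Finset.sum_congr rfl fun i _ => ?_
  rw [Finset.sum_comm]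

lemma Phi_int_pos {a l s : ℝ} (hl : 0 < l) (hs : 0 < s) (R : Fin K → Space)
    (b : Fin M → Fin K) : 0 < ∫ x : Config M, Phi a l s R b x ^ 2 := by
  have hc : Continuous (fun x : Config M => Phi a l s R b x ^ 2) := (Phi_continuous hs R b).pow 2
  have hi : Integrable (fun x : Config M => Phi a l s R b x ^ 2) := by
    have := normSq_integrable (PhiS a hl hs R b)
    simpa only [norm_PhiS] using this
  have hnn : 0 ≤ (fun x : Config M => Phi a l s R b x ^ 2) := fun x => by positivity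
  rw [integral_pos_iff_support_of_nonneg hnn hi]
  refine (hc.isOpen_support).measure_pos _ ?_
  refine ⟨WithLp.toLp 2 (fun p => WithLp.ofLp (R (b p.1)) p.2), ?_⟩
  rw [Function.mem_support]
  apply pow_ne_zero
  unfold Phi
  rw [Finset.prod_ne_zero_iff]
  intro i _
  refine (uu_pos hl ?_).ne'
  have : qq (WithLp.toLp 2 (fun p => WithLp.ofLp (R (b p.1)) p.2) : Config M) i (R (b i)) = 0 := by
    unfold qq
    simp
  rw [this]
  positivity

/-- The unnormalised trial function. -/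
lemma trial {a κ l D : ℝ} (ha0 : 0 < a) (ha1 : a ≤ 1) (hκ : 0 < κ) (hκ1 : κ ≤ 1)
    (hl0 : 0 < l) (hl : 6 ≤ a * l) (hD : 0 < D) {z : Fin K → ℝ} (hz : ∀ k, 0 ≤ z k)
    {R : Fin K → Space} (hR : ∀ j k, j ≠ k → D + 2 * l ≤ ‖R j - R k‖) (b : Fin M → Fin K)
    (hb : Function.Injective b) (hzb : ∀ i, z (b i) = 2 * a) (hs : 0 < κ ^ 3) :
    0 < ∫ x : Config M, ‖f0 a hl0 hs R b x‖ ^ 2 ∧
    comp z R (f0 a hl0 hs R b) ≤ Eup M a l κ D * ∫ x : Config M, ‖f0 a hl0 hs R b x‖ ^ 2 := by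
  have hsep : Sep l R := fun j k hjk => by
    have := hR j k hjk
    linarith
  rw [f0_normSq a hl0 hs hsep hb, f0_comp a hl0 hs z hsep hb]
  constructor
  · refine Finset.sum_pos (fun τ _ => Phi_int_pos hl0 hs _ _) ?_
    exact Finset.univ_nonempty
  · rw [Finset.mul_sum]
    refine Finset.sum_le_sum fun τ _ => ?_
    exact product_energy ha0 ha1 hκ hκ1 hl0 hl hD hz hR (b ∘ τ) (hb.comp τ.injective)
      (fun i => hzb (τ i))

end Pool.Agent.Helper67.Dil
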