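import Pool.Agent.Helper67.Dil.Antisym

set_option autoImplicit false
set_option linter.unusedSectionVars false
open MeasureTheory SchwartzMap
open scoped RealInnerProductSpace ContDiff

namespace Pool.Agent.Helper67.Dil

open Pool.Agent.Helper67.Conv (Space Config pos Wave dv ee qq chi chi' tt Sep repul qq_add add_ee
  qq_nonneg near_iff sum_sq_orth sg sg_mul_self sep_unique normSq_integrable dv_eq qq_perm)

variable {N K : ℕ}

/-- The linear identification of the two configuration spaces. -/
noncomputable def toC (N : ℕ) : (Fin N → Space) ≃ₗ[ℝ] Config N where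
  toFun y := WithLp.toLp 2 (fun p => WithLp.ofLp (y p.1) p.2)
  invFun x := fun i => pos x i
  map_add' _ _ := rfl
  map_smul' _ _ := rfl
  left_inv _ := rfl
  right_inv _ := rfl

/-- continuous version -/
noncomputable def toCL (N : ℕ) : (Fin N → Space) ≃L[ℝ] Config N := (toC N).toContinuousLinearEquiv

lemma toCL_apply (y : Fin N → Space) :
    toCL N y = WithLp.toLp 2 (fun p => WithLp.ofLp (y p.1) p.2) := rfl

lemma toCL_symm_apply (x : Config N) : (toCL N).symm x = fun i => pos x i := rfl

lemma uncurry_mp : MeasurePreserving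
    (fun (f : Fin N → Fin 3 → ℝ) (p : Fin N × Fin 3) => f p.1 p.2) volume volume := by
  have hm : Measurable (fun (f : Fin N → Fin 3 → ℝ) (p : Fin N × Fin 3) => f p.1 p.2) := by
    fun_prop
  refine ⟨hm, ?_⟩
  symm
  refine Measure.pi_eq fun s hs => ?_
  rw [Measure.map_apply hm (MeasurableSet.univ_pi hs)]
  have e : (fun (f : Fin N → Fin 3 → ℝ) (p : Fin N × Fin 3) => f p.1 p.2) ⁻¹'
      (Set.univ.pi s) = Set.univ.pi (fun i => Set.univ.pi fun c => s (i, c)) := by
    ext f
    simp only [Set.mem_preimage, Set.mem_pi, Set.mem_univ, true_implies]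
    constructor
    · intro h i c
      exact h (i, c)
    · intro h p
      exact h p.1 p.2
  rw [e, volume_pi_pi, Fintype.prod_prod_type]
  refine Finset.prod_congr rfl fun i _ => ?_
  rw [volume_pi_pi]

lemma toCL_mp : MeasurePreserving (toCL N) volume volume := by
  have h1 : MeasurePreserving (fun (y : Fin N → Space) (i : Fin N) => WithLp.ofLp (y i))
      volume volume :=
    volume_preserving_pi fun _ => PiLp.volume_preserving_ofLp (Fin 3)
  have h2 := (PiLp.volume_preserving_toLp (Fin N × Fin 3)).comp (uncurry_mp.comp h1)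
  exact h2

lemma integral_toCL (g : Config N → ℝ) :
    ∫ y : Fin N → Space, g (toCL N y) = ∫ x : Config N, g x :=
  toCL_mp.integral_comp (toCL N).toHomeomorph.measurableEmbedding g

/-- pull back to the euclidean configuration space -/
noncomputable def pull (g : (Fin N → Space) → ℂ) (hg : ContDiff ℝ ∞ g)
    (hc : HasCompactSupport g) : 𝓢(Config N, ℂ) :=
  HasCompactSupport.toSchwartzMap (f := fun x => g ((toCL N).symm x))
    (hc.comp_homeomorph (toCL N).symm.toHomeomorph)
    (hg.comp (toCL N).symm.contDiff)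

lemma pull_apply (g : (Fin N → Space) → ℂ) (hg : ContDiff ℝ ∞ g)
    (hc : HasCompactSupport g) (x : Config N) : pull g hg hc x = g ((toCL N).symm x) := rfl

lemma pull_toCL (g : (Fin N → Space) → ℂ) (hg : ContDiff ℝ ∞ g)
    (hc : HasCompactSupport g) (y : Fin N → Space) : pull g hg hc (toCL N y) = g y := by
  rw [pull_apply, ContinuousLinearEquiv.symm_apply_apply]

lemma symm_ee (i : Fin N) (c : Fin 3) :
    (toCL N).symm (ee i c) = Pi.single i (EuclideanSpace.single c (1 : ℝ)) := by
  rw [toCL_symm_apply]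
  funext j
  ext d
  by_cases h : j = i
  · subst h
    rw [Pi.single_eq_same]
    simp only [pos, ee, PiLp.single_apply]
    by_cases hd : d = c
    · subst hd
      simp
    · simp [hd]
  · rw [Pi.single_eq_of_ne h]
    simp only [pos, ee, PiLp.single_apply]
    simp [h]

lemma dv_pull (g : (Fin N → Space) → ℂ) (hg : ContDiff ℝ ∞ g)
    (hc : HasCompactSupport g) (y : Fin N → Space) (i : Fin N) (c : Fin 3) :
    dv (pull g hg hc) (ee i c) (toCL N y) =
      fderiv ℝ g y (Pi.single i (EuclideanSpace.single c (1 : ℝ))) := by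
  unfold dv
  have e : (fun x => pull g hg hc x) = g ∘ (toCL N).symm := rfl
  rw [e, ContinuousLinearEquiv.comp_right_fderiv, ContinuousLinearMap.comp_apply,
    ContinuousLinearEquiv.coe_coe, symm_ee, ContinuousLinearEquiv.symm_apply_apply]

lemma pos_toCL (y : Fin N → Space) (i : Fin N) : pos (toCL N y) i = y i := rfl

lemma repul_toCL (y : Fin N → Space) :
    repul (toCL N y) = ∑ i, ∑ i' ∈ Finset.Ioi i, 1 / dist (y i) (y i') := by
  unfold repul
  refine Finset.sum_congr rfl fun i _ => ?_
  rw [← Finset.sum_filter]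
  refine Finset.sum_congr ?_ fun j _ => ?_
  · ext j
    simp
  · rw [pos_toCL, pos_toCL, dist_eq_norm]

lemma pot_toCL (z : Fin K → ℝ) (R : Fin K → Space) (y : Fin N → Space) :
    pot z R (toCL N y) = ∑ i, ∑ i' ∈ Finset.Ioi i, 1 / dist (y i) (y i') -
      ∑ i, ∑ j, z j / dist (y i) (R j) := by
  unfold pot
  rw [repul_toCL]
  simp only [pos_toCL, dist_eq_norm]

lemma pull_norm (g : (Fin N → Space) → ℂ) (hg : ContDiff ℝ ∞ g)
    (hc : HasCompactSupport g) :
    ∫ y, ‖g y‖ ^ 2 = ∫ x : Config N, ‖pull g hg hc x‖ ^ 2 := by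
  rw [← integral_toCL]
  simp only [pull_toCL]

lemma pull_energy (z : Fin K → ℝ) (R : Fin K → Space) (g : (Fin N → Space) → ℂ)
    (hg : ContDiff ℝ ∞ g) (hc : HasCompactSupport g) :
    ∫ y, ((∑ i, ∑ k : Fin 3,
      ‖fderiv ℝ g y (Pi.single i (EuclideanSpace.single k (1 : ℝ)))‖ ^ 2) +
      (∑ i, ∑ i' ∈ Finset.Ioi i, 1 / dist (y i) (y i') -
      ∑ i, ∑ j, z j / dist (y i) (R j)) * ‖g y‖ ^ 2) = comp z R (pull g hg hc) := by
  have hI : ∀ i c, Integrable (fun x : Config N => ‖dv (pull g hg hc) (ee i c) x‖ ^ 2) :=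
    fun i c => Conv.dv_normSq_integrable _ _
  unfold comp
  have h1 : (∑ i, ∑ c, ∫ x : Config N, ‖dv (pull g hg hc) (ee i c) x‖ ^ 2) =
      ∫ x : Config N, ∑ i, ∑ c, ‖dv (pull g hg hc) (ee i c) x‖ ^ 2 := by
    rw [integral_finsetSum _ fun i _ => integrable_finsetSum _ fun c _ => hI i c]
    refine Finset.sum_congr rfl fun i _ => ?_
    rw [integral_finsetSum _ fun c _ => hI i c]
  rw [h1, ← integral_add (integrable_finsetSum _ fun i _ =>
    integrable_finsetSum _ fun c _ => hI i c) (pot_int z R _), ← integral_toCL]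
  congr 1
  funext y
  simp only [dv_pull, pull_toCL, pot_toCL]

end Pool.Agent.Helper67.Dil
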