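import Pool.Agent.Helper67.Dil.OneBody
import Pool.Agent.Helper67.Conv.Energy
import Pool.Agent.Helper67.Conv.Pointwise

set_option autoImplicit false
set_option linter.unusedSectionVars false
open MeasureTheory SchwartzMap
open scoped RealInnerProductSpace

namespace Pool.Agent.Helper67.Dil

open Pool.Agent.Helper67.Conv (Space Config pos Wave dv ee qq chi chi' tt Sep repul)

variable {M K : ℕ}

/-- Potential with real charges. -/
noncomputable def pot (z : Fin K → ℝ) (R : Fin K → Space) (x : Config M) : ℝ :=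
  repul x - ∑ i : Fin M, ∑ k : Fin K, z k / ‖pos x i - R k‖

lemma rep_int' (f : 𝓢(Config M, ℂ)) : Integrable (fun x : Config M => repul x * ‖f x‖ ^ 2) := by
  have h1 : Integrable (fun x : Config M => ∑ i : Fin M, ∑ j : Fin M,
      (if i < j then 1 / ‖pos x i - pos x j‖ else 0) * ‖f x‖ ^ 2) :=
    integrable_finsetSum _ fun i _ => integrable_finsetSum _ fun j _ => Conv.rep_int f i j
  refine h1.congr (Filter.Eventually.of_forall fun x => ?_)
  simp only [repul, Finset.sum_mul]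

lemma pot_int (z : Fin K → ℝ) (R : Fin K → Space) (f : 𝓢(Config M, ℂ)) :
    Integrable (fun x : Config M => pot z R x * ‖f x‖ ^ 2) := by
  have h2 : Integrable (fun x : Config M => ∑ i : Fin M, ∑ k : Fin K,
      z k / ‖pos x i - R k‖ * ‖f x‖ ^ 2) := by
    refine integrable_finsetSum _ fun i _ => integrable_finsetSum _ fun k _ => ?_
    simp only [Conv.norm_pos_sub]
    refine ((Conv.att_int f i (R k)).const_mul (z k)).congr
      (Filter.Eventually.of_forall fun x => ?_)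
    simp only
    ring
  refine ((rep_int' f).sub h2).congr (Filter.Eventually.of_forall fun x => ?_)
  simp only [Pi.sub_apply, pot, sub_mul, Finset.sum_mul]

/-- One component of the energy. -/
noncomputable def comp (z : Fin K → ℝ) (R : Fin K → Space) (f : 𝓢(Config M, ℂ)) : ℝ :=
  (∑ i, ∑ c, ∫ x : Config M, ‖dv f (ee i c) x‖ ^ 2) + ∫ x : Config M, pot z R x * ‖f x‖ ^ 2

/-- The total lower bound potential. -/
noncomputable def Theta (l : ℝ) (z : Fin K → ℝ) (R : Fin K → Space) (x : Config M) : ℝ :=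
  (∑ i, (aa0 l z R i x - bb l z R i x)) + pot z R x

lemma theta_int {l : ℝ} (hl : 0 < l) (z : Fin K → ℝ) (R : Fin K → Space) (f : 𝓢(Config M, ℂ)) :
    Integrable (fun x : Config M => Theta l z R x * ‖f x‖ ^ 2) := by
  have h1 : Integrable (fun x : Config M => ∑ i : Fin M,
      (aa0 l z R i x * ‖f x‖ ^ 2 - bb l z R i x * ‖f x‖ ^ 2)) :=
    integrable_finsetSum _ fun i _ => (aa0_int l z R f i).sub (bb_int hl z R f i)
  refine (h1.add (pot_int z R f)).congr (Filter.Eventually.of_forall fun x => ?_)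
  simp only [Pi.add_apply, Theta, add_mul, Finset.sum_mul]
  congr 1
  refine Finset.sum_congr rfl fun i _ => ?_
  ring

lemma component_ge {l : ℝ} (hl : 0 < l) {z : Fin K → ℝ} (hz : ∀ k, 0 ≤ z k)
    {R : Fin K → Space} (hsep : Sep l R) (f : 𝓢(Config M, ℂ)) :
    ∫ x : Config M, Theta l z R x * ‖f x‖ ^ 2 ≤ comp z R f := by
  have e1 : ∫ x : Config M, Theta l z R x * ‖f x‖ ^ 2 =
      (∑ i, ∫ x : Config M, (aa0 l z R i x - bb l z R i x) * ‖f x‖ ^ 2) +
      ∫ x : Config M, pot z R x * ‖f x‖ ^ 2 := by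
    have hi : ∀ i, Integrable (fun x : Config M =>
        (aa0 l z R i x - bb l z R i x) * ‖f x‖ ^ 2) := by
      intro i
      refine ((aa0_int l z R f i).sub (bb_int hl z R f i)).congr
        (Filter.Eventually.of_forall fun x => ?_)
      simp only [Pi.sub_apply]
      ring
    have h0 : (fun x : Config M => Theta l z R x * ‖f x‖ ^ 2) = fun x =>
        (∑ i, (aa0 l z R i x - bb l z R i x) * ‖f x‖ ^ 2) +
        pot z R x * ‖f x‖ ^ 2 := by
      funext x
      rw [Theta, add_mul, Finset.sum_mul]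
    rw [h0, integral_add (integrable_finsetSum _ fun i _ => hi i) (pot_int z R f),
      integral_finsetSum _ fun i _ => hi i]
  rw [e1]
  unfold comp
  refine add_le_add ?_ le_rfl
  refine Finset.sum_le_sum fun i _ => ?_
  exact kin_lower hl hz hsep f i

/-- An almost everywhere lower bound for `Theta` is a lower bound for the energy. -/
lemma comp_ge {l : ℝ} (hl : 0 < l) {z : Fin K → ℝ} (hz : ∀ k, 0 ≤ z k)
    {R : Fin K → Space} (hsep : Sep l R) {c : ℝ}
    (hc : ∀ᵐ x : Config M, c ≤ Theta l z R x) (f : 𝓢(Config M, ℂ)) :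
    c * ∫ x : Config M, ‖f x‖ ^ 2 ≤ comp z R f := by
  refine le_trans ?_ (component_ge hl hz hsep f)
  rw [← integral_const_mul]
  refine integral_mono_ae ((Conv.normSq_integrable f).const_mul c) (theta_int hl z R f) ?_
  filter_upwards [hc] with x hx
  exact mul_le_mul_of_nonneg_right hx (by positivity)

/-- One electron part of the lower bound potential. -/
noncomputable def tau (l : ℝ) (z : Fin K → ℝ) (R : Fin K → Space) (x : Config M)
    (i : Fin M) : ℝ :=
  (aa0 l z R i x - bb l z R i x) - ∑ k, z k / ‖pos x i - R k‖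

lemma Theta_eq (l : ℝ) (z : Fin K → ℝ) (R : Fin K → Space) (x : Config M) :
    Theta l z R x = (∑ i, tau l z R x i) + repul x := by
  unfold Theta pot tau
  simp only [Finset.sum_sub_distrib]
  ring

/-- The summand belonging to nucleus `k`. -/
noncomputable def term (l z q : ℝ) : ℝ :=
  z * (chi l q / Real.sqrt q + chi' l q * Real.sqrt q - 1 / Real.sqrt q) -
    z ^ 2 / 4 * chi l q ^ 2

lemma tau_eq (l : ℝ) (z : Fin K → ℝ) (R : Fin K → Space) (x : Config M) (i : Fin M) :
    tau l z R x i = ∑ k, term l (z k) (qq x i (R k)) := by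
  unfold tau aa0 bb term
  simp only [Conv.norm_pos_sub]
  rw [← Finset.sum_sub_distrib, ← Finset.sum_sub_distrib]
  refine Finset.sum_congr rfl fun k _ => ?_
  ring

lemma term_far {l z q : ℝ} (hl : 0 < l) (h : l ^ 2 ≤ q) :
    term l z q = - (z / Real.sqrt q) := by
  unfold term
  rw [Conv.chi_eq_zero hl h, Conv.chi'_eq_zero hl h]
  ring

lemma term_far_ge {l z q : ℝ} (hl : 0 < l) (hz : 0 ≤ z) (h : l ^ 2 ≤ q) :
    -(z / l) ≤ term l z q := by
  rw [term_far hl h]
  have : l ≤ Real.sqrt q := Real.le_sqrt_of_sq_le h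
  have := div_le_div_of_nonneg_left hz hl this
  linarith

/-- Constant for the near bound. -/
noncomputable def cc (C l : ℝ) : ℝ := 128 / 9 * C ^ 2 / l ^ 2

lemma cc_nonneg (C l : ℝ) : 0 ≤ cc C l := by unfold cc; positivity

lemma term_near {C : ℝ} (hC : ∀ x, |deriv Real.smoothTransition x| ≤ C) {l z q : ℝ}
    (hz : 0 < z) (hl : 16 / z ≤ l) : -(z ^ 2 / 4) - cc C l ≤ term l z q := by
  have hl0 : 0 < l := lt_of_lt_of_le (by positivity) hl
  have hC0 : 0 ≤ C := (abs_nonneg _).trans (hC 0)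
  have h1 := Conv.chi'_bound hC (q := q) hl0
  have hT0 := Conv.tt_nonneg l q
  have hT1 := Conv.tt_le_one l q
  have hlz : 16 ≤ z * l := by
    rw [div_le_iff₀ hz] at hl
    linarith
  have h2 : z * (tt l q ^ 2 / Real.sqrt q) ≤ z ^ 2 / 8 * tt l q ^ 2 := by
    by_cases hc : q ≤ l ^ 2 / 4
    · rw [Conv.tt_eq_zero hl0 hc]
      norm_num
    · have h3 : l / 2 ≤ Real.sqrt q := by
        apply Real.le_sqrt_of_sq_le
        nlinarith
      have h4 : 0 < Real.sqrt q := lt_of_lt_of_le (by positivity) h3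
      have h5 : z * (tt l q ^ 2 / Real.sqrt q) = z * tt l q ^ 2 / Real.sqrt q := by ring
      rw [h5, div_le_iff₀ h4]
      have h6 : z ^ 2 / 8 * tt l q ^ 2 * Real.sqrt q =
        z * tt l q ^ 2 * (z * Real.sqrt q / 8) := by ring
      rw [h6]
      have h7 : 1 ≤ z * Real.sqrt q / 8 := by
        have : z * (l / 2) ≤ z * Real.sqrt q := mul_le_mul_of_nonneg_left h3 hz.le
        linarith
      have h8 : 0 ≤ z * tt l q ^ 2 := by positivity
      nlinarith
  have h3 : term l z q = - (z * (tt l q ^ 2 / Real.sqrt q)) -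
      z ^ 2 / 4 * (1 - tt l q ^ 2) ^ 2 + z * (chi' l q * Real.sqrt q) := by
    unfold term chi
    ring
  rw [h3]
  have h4 : cc C l = 2 * (8 / 3 * C / l) ^ 2 := by unfold cc; ring
  rw [h4]
  set a := 8 / 3 * C / l
  have h5 : z * (-(a * tt l q)) ≤ z * (chi' l q * Real.sqrt q) :=
    mul_le_mul_of_nonneg_left h1 hz.le
  set T := tt l q
  have h6 : z ^ 2 / 4 * (1 - T ^ 2) ^ 2 ≤ z ^ 2 / 4 * (1 - T ^ 2) := by
    refine mul_le_mul_of_nonneg_left ?_ (by positivity)
    have h7 : 0 ≤ 1 - T ^ 2 := by nlinarith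
    have h8 : 1 - T ^ 2 ≤ 1 := by nlinarith
    nlinarith
  nlinarith [sq_nonneg (z * T / 4 - a), sq_nonneg (z * T - 4 * a)]

lemma card_sum_erase {z : Fin K → ℝ} (hz : ∀ k, 0 ≤ z k) (j : Fin K) :
    ∑ k ∈ Finset.univ.erase j, z k ≤ ∑ k, z k :=
  Finset.sum_le_sum_of_subset_of_nonneg (Finset.erase_subset _ _) fun k _ _ => hz k

lemma tau_near {C : ℝ} (hC : ∀ x, |deriv Real.smoothTransition x| ≤ C) {l : ℝ} (hl0 : 0 < l)
    {z : Fin K → ℝ} (hz : ∀ k, 0 < z k) {R : Fin K → Space}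
    (hsep : Sep l R) (x : Config M) (i : Fin M) (j : Fin K) (hl : 16 / z j ≤ l)
    (hj : qq x i (R j) < l ^ 2) :
    -(z j ^ 2 / 4) - cc C l - ∑ k ∈ Finset.univ.erase j, z k / ‖pos x i - R k‖ ≤
      tau l z R x i := by
  rw [tau_eq, ← Finset.add_sum_erase Finset.univ (fun k => term l (z k) (qq x i (R k)))
    (Finset.mem_univ j)]
  have h1 := term_near hC (q := qq x i (R j)) (hz j) hl
  have h2 : ∑ k ∈ Finset.univ.erase j, term l (z k) (qq x i (R k)) =
      - ∑ k ∈ Finset.univ.erase j, z k / ‖pos x i - R k‖ := by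
    rw [← Finset.sum_neg_distrib]
    refine Finset.sum_congr rfl fun k hk => ?_
    rw [term_far hl0 (Conv.sep_unique hsep x i hj hl0 (Finset.ne_of_mem_erase hk)),
      Conv.norm_pos_sub]
  rw [h2]
  linarith

lemma tau_near' {C : ℝ} (hC : ∀ x, |deriv Real.smoothTransition x| ≤ C) {l : ℝ} (hl0 : 0 < l)
    {z : Fin K → ℝ} (hz : ∀ k, 0 < z k) {R : Fin K → Space}
    (hsep : Sep l R) (x : Config M) (i : Fin M) (j : Fin K) (hl : 16 / z j ≤ l)
    (hj : qq x i (R j) < l ^ 2) :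
    -(z j ^ 2 / 4) - cc C l - (∑ k, z k) / l ≤ tau l z R x i := by
  rw [tau_eq, ← Finset.add_sum_erase Finset.univ (fun k => term l (z k) (qq x i (R k)))
    (Finset.mem_univ j)]
  have h1 := term_near hC (q := qq x i (R j)) (hz j) hl
  have h2 : -((∑ k, z k) / l) ≤
      ∑ k ∈ Finset.univ.erase j, term l (z k) (qq x i (R k)) := by
    have h3 : ∑ k ∈ Finset.univ.erase j, -(z k / l) ≤
        ∑ k ∈ Finset.univ.erase j, term l (z k) (qq x i (R k)) := by
      refine Finset.sum_le_sum fun k hk => ?_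
      exact term_far_ge hl0 (hz k).le
        (Conv.sep_unique hsep x i hj hl0 (Finset.ne_of_mem_erase hk))
    refine le_trans ?_ h3
    rw [Finset.sum_neg_distrib, ← Finset.sum_div]
    have h4 := card_sum_erase (fun k => (hz k).le) j
    have h5 : (∑ k ∈ Finset.univ.erase j, z k) / l ≤ (∑ k, z k) / l :=
      div_le_div_of_nonneg_right h4 hl0.le
    linarith
  linarith

lemma tau_far {l : ℝ} (hl : 0 < l) {z : Fin K → ℝ} (hz : ∀ k, 0 < z k) {R : Fin K → Space}
    (x : Config M) (i : Fin M)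
    (h : ∀ j, l ^ 2 ≤ qq x i (R j)) : -((∑ k, z k) / l) ≤ tau l z R x i := by
  rw [tau_eq]
  have h3 : ∑ k : Fin K, -(z k / l) ≤ ∑ k, term l (z k) (qq x i (R k)) :=
    Finset.sum_le_sum fun k _ => term_far_ge hl (hz k).le (h k)
  refine le_trans ?_ h3
  rw [Finset.sum_neg_distrib, ← Finset.sum_div]

lemma tau_ge {C : ℝ} (hC : ∀ x, |deriv Real.smoothTransition x| ≤ C) {l : ℝ} (hl0 : 0 < l)
    {z : Fin K → ℝ} (hz : ∀ k, 0 < z k) {R : Fin K → Space}
    (hsep : Sep l R) (x : Config M) (i : Fin M) (hl : ∀ j, 16 / z j ≤ l) {w : ℝ}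
    (hw0 : 0 ≤ w) (hw : ∀ j, z j ≤ w) :
    -(w ^ 2 / 4) - cc C l - (∑ k, z k) / l ≤ tau l z R x i := by
  by_cases h : ∃ j, qq x i (R j) < l ^ 2
  · obtain ⟨j, hj⟩ := h
    refine le_trans ?_ (tau_near' hC hl0 hz hsep x i j (hl j) hj)
    have h1 := hw j
    have h2 := hz j
    have : z j ^ 2 ≤ w ^ 2 := pow_le_pow_left₀ h2.le h1 2
    linarith
  · push Not at h
    have := tau_far hl0 hz x i h
    have h2 := cc_nonneg C l
    have h3 : 0 ≤ w ^ 2 / 4 := by positivity
    linarith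

/-- Crude lower bound. -/
lemma Theta_ge {C : ℝ} (hC : ∀ x, |deriv Real.smoothTransition x| ≤ C) {l : ℝ} (hl0 : 0 < l)
    {z : Fin K → ℝ} (hz : ∀ k, 0 < z k) {R : Fin K → Space}
    (hsep : Sep l R) (x : Config M) (hl : ∀ j, 16 / z j ≤ l) {w : ℝ}
    (hw0 : 0 ≤ w) (hw : ∀ j, z j ≤ w) :
    M * (-(w ^ 2 / 4) - cc C l - (∑ k, z k) / l) ≤ Theta l z R x := by
  rw [Theta_eq]
  have h1 : ∑ i : Fin M, (-(w ^ 2 / 4) - cc C l - (∑ k, z k) / l) ≤ ∑ i, tau l z R x i :=
    Finset.sum_le_sum fun i _ => tau_ge hC hl0 hz hsep x i hl hw0 hw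
  rw [Finset.sum_const, nsmul_eq_mul, Finset.card_univ, Fintype.card_fin] at h1
  have := Conv.repul_nonneg x
  linarith

end Pool.Agent.Helper67.Dil
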