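import Pool.Agent.Helper67.Dil.Frozen
import Pool.Agent.Helper67.Conv.Final

set_option autoImplicit false
set_option linter.unusedSectionVars false
open MeasureTheory SchwartzMap
open scoped RealInnerProductSpace ContDiff

namespace Pool.Agent.Helper67.Dil

open Pool.Agent.Helper67.Conv (Space Config pos qq Sep repul qq_nonneg near_iff exists_bound_deriv
  ae_distinct)

/-- charges -/
noncomputable def zz : Fin 6 → ℝ := ![2 / 5, 2 / 5, 3 / 10, 3 / 10, 3 / 10, 3 / 10]

/-- coordinates -/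
noncomputable def xx : Fin 6 → ℝ := ![0, 1, 100, 200, 300, 400]

/-- positions -/
noncomputable def PP (k : Fin 6) : Space := xx k • EuclideanSpace.single 0 (1 : ℝ)

lemma zz_pos (k : Fin 6) : 0 < zz k := by
  fin_cases k <;> simp [zz]

lemma zz_ge (k : Fin 6) : 3 / 10 ≤ zz k := by
  fin_cases k <;> simp [zz] <;> norm_num

lemma zz_le (k : Fin 6) : zz k ≤ 2 / 5 := by
  fin_cases k <;> simp [zz] <;> norm_num

lemma zz_sum : ∑ k, zz k = 2 := by
  simp [zz, Fin.sum_univ_succ]
  norm_num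

lemma norm_PP {lam : ℝ} (hlam : 0 < lam) (j k : Fin 6) :
    ‖lam • PP j - lam • PP k‖ = lam * |xx j - xx k| := by
  unfold PP
  rw [← smul_sub, ← sub_smul, norm_smul, norm_smul, EuclideanSpace.norm_single, norm_one, mul_one,
    Real.norm_eq_abs, Real.norm_eq_abs, abs_of_pos hlam]

lemma xx_sep (j k : Fin 6) (h : j ≠ k) : 1 ≤ |xx j - xx k| := by
  fin_cases j <;> fin_cases k <;> first | exact absurd rfl h | (simp [xx] <;> norm_num)

lemma PP_inj : Function.Injective PP := by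
  intro j k h
  by_contra hne
  have h1 := xx_sep j k hne
  have h2 := norm_PP one_pos j k
  rw [h, sub_self, norm_zero, one_mul] at h2
  linarith

lemma PP_sep {lam ℓ : ℝ} (hlam : 0 < lam) (h : 2 * ℓ ≤ lam) : Sep ℓ (fun j => lam • PP j) := by
  intro j k hjk
  rw [norm_PP hlam]
  have := xx_sep j k hjk
  nlinarith

/-- Lower bounds for the distances to the other nuclei. -/
lemma dist_ge {lam ℓ : ℝ} (hlam : 0 < lam) (x : Config 2) (i : Fin 2) (j k : Fin 6)
    (hj : ‖pos x i - lam • PP j‖ ≤ ℓ) :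
    lam * |xx j - xx k| - ℓ ≤ ‖pos x i - lam • PP k‖ := by
  rw [← norm_PP hlam]
  have e : lam • PP j - lam • PP k = -(pos x i - lam • PP j) + (pos x i - lam • PP k) := by abel
  have h := norm_add_le (-(pos x i - lam • PP j)) (pos x i - lam • PP k)
  rw [norm_neg, ← e] at h
  linarith

/-- The attraction by the other nuclei. -/
lemma attr_le {lam ℓ : ℝ} (hlam : 0 < lam) (hℓ : 0 < ℓ) (h : 1000 * ℓ ≤ lam)
    (x : Config 2) (i : Fin 2)
    (j : Fin 6) (hj01 : j = 0 ∨ j = 1) (hj : ‖pos x i - lam • PP j‖ ≤ ℓ) :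
    ∑ k ∈ Finset.univ.erase j, zz k / ‖pos x i - lam • PP k‖ ≤ (414 / 1000) / lam := by
  have hd := fun k => dist_ge hlam x i j k hj
  have near : ∀ k : Fin 6, |xx j - xx k| = 1 → (2 / 5 : ℝ) / ‖pos x i - lam • PP k‖ ≤
      (4004 / 10000 + 6 / 10000) / lam := by
    intro k hk
    have h1 := hd k
    rw [hk] at h1
    have h2 : 999 / 1000 * lam ≤ ‖pos x i - lam • PP k‖ := by linarith
    have h3 : 0 < ‖pos x i - lam • PP k‖ := lt_of_lt_of_le (by positivity) h2
    rw [div_le_div_iff₀ h3 hlam]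
    nlinarith
  have far : ∀ k : Fin 6, 99 ≤ |xx j - xx k| → (3 / 10 : ℝ) / ‖pos x i - lam • PP k‖ ≤
      (3 / 980 : ℝ) / lam := by
    intro k hk
    have h1 := hd k
    have h2 : 98 * lam ≤ ‖pos x i - lam • PP k‖ := by nlinarith
    have h3 : 0 < ‖pos x i - lam • PP k‖ := lt_of_lt_of_le (by positivity) h2
    rw [div_le_div_iff₀ h3 hlam]
    nlinarith
  have hy : 0 < 1 / lam := by positivity
  have e1 : ∀ w : ℝ, w / lam = w * (1 / lam) := fun w => by ring
  rcases hj01 with rfl | rfl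
  · have s : ∑ k ∈ Finset.univ.erase (0 : Fin 6), zz k / ‖pos x i - lam • PP k‖ =
        (2 / 5) / ‖pos x i - lam • PP 1‖ + (3 / 10) / ‖pos x i - lam • PP 2‖ +
        (3 / 10) / ‖pos x i - lam • PP 3‖ + (3 / 10) / ‖pos x i - lam • PP 4‖ +
        (3 / 10) / ‖pos x i - lam • PP 5‖ := by
      rw [Finset.sum_erase_eq_sub (Finset.mem_univ _), Fin.sum_univ_six]
      simp [zz]
      ring
    rw [s]
    have n1 := near 1 (by simp [xx])
    have f2 := far 2 (by simp [xx]; norm_num)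
    have f3 := far 3 (by simp [xx]; norm_num)
    have f4 := far 4 (by simp [xx]; norm_num)
    have f5 := far 5 (by simp [xx]; norm_num)
    rw [e1] at n1 f2 f3 f4 f5 ⊢
    linarith
  · have s : ∑ k ∈ Finset.univ.erase (1 : Fin 6), zz k / ‖pos x i - lam • PP k‖ =
        (2 / 5) / ‖pos x i - lam • PP 0‖ + (3 / 10) / ‖pos x i - lam • PP 2‖ +
        (3 / 10) / ‖pos x i - lam • PP 3‖ + (3 / 10) / ‖pos x i - lam • PP 4‖ +
        (3 / 10) / ‖pos x i - lam • PP 5‖ := by
      rw [Finset.sum_erase_eq_sub (Finset.mem_univ _), Fin.sum_univ_six]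
      simp [zz]
      ring
    rw [s]
    have n1 := near 0 (by simp [xx])
    have f2 := far 2 (by simp [xx]; norm_num)
    have f3 := far 3 (by simp [xx]; norm_num)
    have f4 := far 4 (by simp [xx]; norm_num)
    have f5 := far 5 (by simp [xx]; norm_num)
    rw [e1] at n1 f2 f3 f4 f5 ⊢
    linarith

/-- One-electron dichotomy. -/
lemma dichotomy {C : ℝ} (hC : ∀ x, |deriv Real.smoothTransition x| ≤ C) {lam ℓ : ℝ}
    (hlam : 0 < lam) (hℓ : 60 ≤ ℓ) (h : 1000 * ℓ ≤ lam) (x : Config 2) (i : Fin 2) :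
    (∃ j : Fin 6, (j = 0 ∨ j = 1) ∧ ‖pos x i - lam • PP j‖ ≤ ℓ ∧
      -(1 / 25) - cc C ℓ - (414 / 1000) / lam ≤ tau ℓ zz (fun k => lam • PP k) x i) ∨
    -(9 / 400) - cc C ℓ - 2 / ℓ ≤ tau ℓ zz (fun k => lam • PP k) x i := by
  have hℓ0 : 0 < ℓ := by linarith
  have hsep : Sep ℓ (fun k => lam • PP k) := PP_sep hlam (by linarith)
  have h16 : ∀ j, 16 / zz j ≤ ℓ := by
    intro j
    rw [div_le_iff₀ (zz_pos j)]
    have := zz_ge j
    nlinarith
  have hcc := cc_nonneg C ℓ
  by_cases hn : ∃ j, qq x i (lam • PP j) < ℓ ^ 2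
  · obtain ⟨j, hj⟩ := hn
    by_cases h01 : j = 0 ∨ j = 1
    · left
      have hj2 : ‖pos x i - lam • PP j‖ ≤ ℓ := ((near_iff hℓ0 x i _).mp hj).le
      refine ⟨j, h01, hj2, ?_⟩
      have h1 := tau_near hC hℓ0 zz_pos hsep x i j (h16 j) hj
      have h2 := attr_le hlam hℓ0 h x i j h01 hj2
      have h3 : zz j = 2 / 5 := by
        rcases h01 with rfl | rfl <;> simp [zz]
      have h4 : ((2 : ℝ) / 5) ^ 2 / 4 = 1 / 25 := by norm_num
      rw [h3, h4] at h1
      linarith
    · right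
      have h1 := tau_near' hC hℓ0 zz_pos hsep x i j (h16 j) hj
      have h3 : zz j = 3 / 10 := by
        rw [not_or] at h01
        obtain ⟨h0, h1⟩ := h01
        fin_cases j
        · exact absurd rfl h0
        · exact absurd rfl h1
        all_goals simp [zz]
      have h4 : ((3 : ℝ) / 10) ^ 2 / 4 = 9 / 400 := by norm_num
      rw [h3, zz_sum, h4] at h1
      linarith
  · push Not at hn
    right
    have h1 := tau_far hℓ0 zz_pos x i hn
    rw [zz_sum] at h1
    linarith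

/-- The main pointwise bound. -/
lemma Theta_main {C : ℝ} (hC : ∀ x, |deriv Real.smoothTransition x| ≤ C) {lam ℓ t : ℝ}
    (ht : 10 ^ 6 ≤ t) (htC : C ^ 2 ≤ t) (hlam : lam = t ^ 4) (hℓ : ℓ = t ^ 3)
    (x : Config 2) (hx : pos x 0 ≠ pos x 1) :
    -(2 / 25) + (1 / 10) / lam ≤ Theta ℓ zz (fun k => lam • PP k) x := by
  have ht0 : 0 < t := by linarith
  have hℓ1 : 10 ^ 6 ≤ ℓ := by
    rw [hℓ]
    have : t ≤ t ^ 3 := by
      have h1 : 1 ≤ t ^ 2 := one_le_pow₀ (by linarith)
      nlinarith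
    linarith
  have hℓ0 : 0 < ℓ := by linarith
  have hlt : lam = t * ℓ := by rw [hlam, hℓ]; ring
  have hlam0 : 0 < lam := by rw [hlt]; positivity
  have h1000 : 10 ^ 6 * ℓ ≤ lam := by rw [hlt]; nlinarith
  set y : ℝ := 1 / lam with hy
  have hy0 : 0 < y := by positivity
  have ew : ∀ w : ℝ, w / lam = w * y := fun w => by rw [hy]; ring
  -- small quantities
  have hcc : cc C ℓ ≤ 1 / 1000 * y := by
    unfold cc
    have e : y = 1 / (t * ℓ) := by rw [hy, hlt]
    rw [e, mul_one_div, div_le_div_iff₀ (by positivity) (by positivity)]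
    have h1 : 128 / 9 * C ^ 2 * (t * ℓ) ≤ 128 / 9 * t * (t * ℓ) :=
      mul_le_mul_of_nonneg_right (by linarith) (by positivity)
    have h2 : 128 / 9 * t * (t * ℓ) ≤ 1 / 1000 * ℓ ^ 2 := by
      have e3 : ℓ ^ 2 = ℓ * (t * t ^ 2) := by rw [sq, hℓ]; ring
      rw [e3]
      have e4 : 128 / 9 * t * (t * ℓ) = ℓ * (128 / 9 * t ^ 2) := by ring
      have e5 : 1 / 1000 * (ℓ * (t * t ^ 2)) = ℓ * (1 / 1000 * (t * t ^ 2)) := by ring
      rw [e4, e5]
      refine mul_le_mul_of_nonneg_left ?_ hℓ0.le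
      have : 0 < t ^ 2 := by positivity
      nlinarith
    linarith
  have hy1 : y ≤ 1 / 10 ^ 6 := by
    rw [hy]
    refine one_div_le_one_div_of_le (by norm_num) ?_
    nlinarith
  have h2ℓ : 2 / ℓ ≤ 2 / 10 ^ 6 := div_le_div_of_nonneg_left (by norm_num) (by norm_num) hℓ1
  have hcc0 := cc_nonneg C ℓ
  have D0 := dichotomy hC hlam0 (by linarith) (by linarith : 1000 * ℓ ≤ lam) x 0
  have D1 := dichotomy hC hlam0 (by linarith) (by linarith : 1000 * ℓ ≤ lam) x 1
  have hrep : 1 / ‖pos x 0 - pos x 1‖ ≤ repul x := Conv.repul_ge x 0 1 (by decide)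
  have hrep0 := Conv.repul_nonneg x
  have hsum : ∑ i, tau ℓ zz (fun k => lam • PP k) x i =
      tau ℓ zz (fun k => lam • PP k) x 0 + tau ℓ zz (fun k => lam • PP k) x 1 := by
    rw [Fin.sum_univ_two]
  have hd0 : 0 < ‖pos x 0 - pos x 1‖ := norm_pos_iff.mpr (sub_ne_zero.mpr hx)
  rw [Theta_eq, hsum, ew]
  rw [ew] at D0 D1
  rcases D0 with ⟨j0, hj0, hn0, hb0⟩ | hb0
  · rcases D1 with ⟨j1, hj1, hn1, hb1⟩ | hb1
    · by_cases hjj : j0 = j1
      · -- same nucleus
        have hd : ‖pos x 0 - pos x 1‖ ≤ 2 * ℓ := by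
          have e : pos x 0 - pos x 1 = (pos x 0 - lam • PP j0) - (pos x 1 - lam • PP j0) := by
            abel
          rw [e]
          refine (norm_sub_le _ _).trans ?_
          rw [← hjj] at hn1
          linarith
        have hr : 10 * y ≤ 1 / ‖pos x 0 - pos x 1‖ := by
          rw [hy, mul_one_div, div_le_div_iff₀ hlam0 hd0]
          nlinarith
        linarith
      · have hd : ‖pos x 0 - pos x 1‖ ≤ lam + 2 * ℓ := by
          have e : pos x 0 - pos x 1 = (pos x 0 - lam • PP j0) +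
              (lam • PP j0 - lam • PP j1) - (pos x 1 - lam • PP j1) := by
            abel
          rw [e]
          refine (norm_sub_le _ _).trans ?_
          have h3 := norm_add_le (pos x 0 - lam • PP j0) (lam • PP j0 - lam • PP j1)
          have h4 : |xx j0 - xx j1| = 1 := by
            rcases hj0 with rfl | rfl <;> rcases hj1 with rfl | rfl
            · exact absurd rfl hjj
            · simp [xx]
            · simp [xx]
            · exact absurd rfl hjj
          rw [norm_PP hlam0, h4, mul_one] at h3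
          linarith
        have hr : 999 / 1000 * y ≤ 1 / ‖pos x 0 - pos x 1‖ := by
          rw [hy, mul_one_div, div_le_div_iff₀ hlam0 hd0]
          nlinarith
        linarith
    · have : 0 ≤ y := hy0.le
      linarith
  · have h1 : -(1 / 25) - cc C ℓ - 2 / ℓ ≤ tau ℓ zz (fun k => lam • PP k) x 1 := by
      rcases D1 with ⟨j1, hj1, hn1, hb1⟩ | hb1
      · have : (414 / 1000) * y ≤ 2 / ℓ := by
          rw [hy, mul_one_div, div_le_div_iff₀ hlam0 hℓ0]
          nlinarith
        linarith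
      · linarith
    linarith

/-- The counterexample. -/
theorem main : ∃ (K N : ℕ) (z : Fin K → ℝ) (R : Fin K → EuclideanSpace ℝ (Fin 3)),
    (∀ j, 0 < z j) ∧ Function.Injective R ∧ (N : ℝ) ≤ ∑ j, z j ∧
    ∃ lam lam' : ℝ, 0 < lam ∧ lam < lam' ∧
      sInf (Eset K N z R lam') < sInf (Eset K N z R lam) := by
  obtain ⟨C, hC0, hC⟩ := exists_bound_deriv
  obtain ⟨t, ht1, htC⟩ : ∃ t : ℝ, 10 ^ 6 ≤ t ∧ C ^ 2 ≤ t := by
    refine ⟨10 ^ 6 + C ^ 2, ?_, ?_⟩
    · nlinarith [sq_nonneg C]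
    · linarith
  have ht0 : 0 < t := by linarith
  obtain ⟨l, hl⟩ : ∃ l : ℝ, l = t ^ 3 := ⟨_, rfl⟩
  obtain ⟨lam, hlam⟩ : ∃ lam : ℝ, lam = t ^ 4 := ⟨_, rfl⟩
  have hl1 : 10 ^ 6 ≤ l := by
    have : t ≤ t ^ 3 := by
      have h1 : 1 ≤ t ^ 2 := one_le_pow₀ (by linarith)
      nlinarith
    linarith
  have hl0 : 0 < l := by linarith
  have hlaml : lam = t * l := by rw [hlam, hl]; ring
  have h1000 : 10 ^ 6 * l ≤ lam := by
    rw [hlaml]
    nlinarith
  have hlam0 : 0 < lam := by linarith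
  have hlam1 : 1 ≤ lam := by linarith
  set b : Fin 2 → Fin 6 := ![0, 1] with hb
  have hbi : Function.Injective b := by
    intro i j hij
    fin_cases i <;> fin_cases j <;> simp_all [hb]
  have hzb : ∀ i, zz (b i) = 2 * (1 / 5) := by
    intro i
    fin_cases i <;> simp [hb, zz] <;> norm_num
  -- lower bound at lam
  have low : -(2 / 25) + (1 / 10) / lam ≤ sInf (Eset 6 2 zz PP lam) := by
    obtain ⟨E0, hE0, _⟩ := Eset_trial (N := 2) (K := 6) (a := 1 / 5) (κ := 1) (ℓ := l) (D := l)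
      (l := lam) (z := zz) (R := PP)
      (by norm_num) (by norm_num) one_pos le_rfl hl0 (by linarith) hl0 (fun k => (zz_pos k).le)
      (by
        intro j k hjk
        rw [norm_PP hlam0]
        have := xx_sep j k hjk
        nlinarith) b hbi hzb
    refine le_csInf ⟨E0, hE0⟩ ?_
    intro E hE
    refine Eset_ge hl0 (fun k => (zz_pos k).le) (PP_sep hlam0 (by linarith)) ?_ hE
    filter_upwards [ae_distinct 2] with x hx
    exact Theta_main hC ht1 htC hlam hl x (hx 0 1 (by decide))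
  -- upper bound at lam'
  obtain ⟨T, hT⟩ : ∃ T : ℝ, T = 401 * lam := ⟨_, rfl⟩
  have hT0 : 0 < T := by rw [hT]; positivity
  have hT1 : 401 ≤ T := by rw [hT]; linarith
  have hlam'0 : 0 < 3 * T := by positivity
  have up : sInf (Eset 6 2 zz PP (3 * T)) < -(2 / 25) + (1 / 10) / lam := by
    obtain ⟨E0, hE0, hE1⟩ := Eset_trial (N := 2) (K := 6) (a := 1 / 5) (κ := 1 / T) (ℓ := T)
      (D := T) (l := 3 * T) (z := zz) (R := PP)
      (by norm_num) (by norm_num) (by positivity)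
      (by rw [div_le_one hT0]; linarith) hT0 (by linarith) hT0 (fun k => (zz_pos k).le)
      (by
        intro j k hjk
        rw [norm_PP hlam'0]
        have := xx_sep j k hjk
        nlinarith) b hbi hzb
    have hbdd : BddBelow (Eset 6 2 zz PP (3 * T)) := by
      refine ⟨(2 : ℕ) * (-((2 / 5) ^ 2 / 4) - cc C T - (∑ k, zz k) / T), ?_⟩
      intro E hE
      refine Eset_ge hT0 (fun k => (zz_pos k).le) (PP_sep hlam'0 (by linarith)) ?_ hE
      refine Filter.Eventually.of_forall fun x => ?_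
      refine Theta_ge hC hT0 zz_pos (PP_sep hlam'0 (by linarith)) x ?_ (by norm_num) zz_le
      intro j
      rw [div_le_iff₀ (zz_pos j)]
      have := zz_ge j
      nlinarith
    refine lt_of_le_of_lt (csInf_le hbdd hE0) (lt_of_le_of_lt hE1 ?_)
    unfold Eup
    set u : ℝ := 1 / T with hu
    have hu0 : 0 < u := by positivity
    have hu1 : u ≤ 1 / 401 := one_div_le_one_div_of_le (by norm_num) hT1
    have e1 : 16 / T ^ 2 = 16 * u ^ 2 := by rw [hu]; ring
    have e2 : ((2 : ℕ) : ℝ) ^ 2 / T = 4 * u := by rw [hu]; push_cast; ring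
    have e3 : 1 / 10 / lam = 401 / 10 * u := by
      rw [hu, hT]
      field_simp
    rw [e1, e2, e3]
    push_cast
    nlinarith
  refine ⟨6, 2, zz, PP, zz_pos, PP_inj, ?_, lam, 3 * T, hlam0, ?_, lt_of_lt_of_le up low⟩
  · rw [zz_sum]
    norm_num
  · rw [hT]
    linarith

end Pool.Agent.Helper67.Dil
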