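import Pool.Agent.Helper67.Dil.Bridge

set_option autoImplicit false
set_option linter.unusedSectionVars false
open MeasureTheory SchwartzMap
open scoped RealInnerProductSpace ContDiff

namespace Pool.Agent.Helper67.Dil

open Pool.Agent.Helper67.Conv (Space Config pos Wave dv ee qq chi chi' tt Sep repul qq_add add_ee
  qq_nonneg near_iff sum_sq_orth sg sg_mul_self sep_unique normSq_integrable dv_eq qq_perm)

variable {N K : ℕ}

/-- The set of energies of the frozen statement. -/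
def Eset (K N : ℕ) (z : Fin K → ℝ) (R : Fin K → EuclideanSpace ℝ (Fin 3)) (l : ℝ) : Set ℝ :=
  {E : ℝ | ∃ ψ : (Fin N → EuclideanSpace ℝ (Fin 3)) → (Fin N → Fin 2) → ℂ,
          (∀ σ : Fin N → Fin 2, ContDiff ℝ (⊤ : ℕ∞) (fun y => ψ y σ)) ∧
          (∀ σ : Fin N → Fin 2, HasCompactSupport (fun y => ψ y σ)) ∧
          (∀ π : Equiv.Perm (Fin N), ∀ x σ,
              ψ (fun i => x (π i)) (fun i => σ (π i)) = ((Equiv.Perm.sign π : ℤ) : ℂ) * ψ x σ) ∧
          (∑ σ : Fin N → Fin 2, ∫ x, ‖ψ x σ‖ ^ 2) = 1 ∧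
          E = ∑ σ : Fin N → Fin 2, ∫ x,
              ((∑ i, ∑ k : Fin 3,
                  ‖fderiv ℝ (fun y => ψ y σ) x
                      (Pi.single i (EuclideanSpace.single k (1 : ℝ)))‖ ^ 2)
                + (∑ i, ∑ i' ∈ Finset.Ioi i, 1 / dist (x i) (x i')
                    - ∑ i, ∑ j, z j / dist (x i) (l • R j)) * ‖ψ x σ‖ ^ 2)}

lemma Eset_ge {ℓ : ℝ} (hℓ : 0 < ℓ) {z : Fin K → ℝ} (hz : ∀ k, 0 ≤ z k)
    {R : Fin K → Space} {l : ℝ} (hsep : Sep ℓ (fun j => l • R j)) {c : ℝ}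
    (hc : ∀ᵐ x : Config N, c ≤ Theta ℓ z (fun j => l • R j) x) {E : ℝ}
    (hE : E ∈ Eset K N z R l) : c ≤ E := by
  obtain ⟨ψ, h1, h2, h3, h4, rfl⟩ := hE
  have e1 : c = ∑ σ : Fin N → Fin 2, c * ∫ x, ‖ψ x σ‖ ^ 2 := by
    rw [← Finset.mul_sum, h4, mul_one]
  refine e1.trans_le ?_
  refine Finset.sum_le_sum fun σ _ => ?_
  rw [pull_norm (fun y => ψ y σ) (h1 σ) (h2 σ)]
  have h5 := pull_energy z (fun j => l • R j) (fun y => ψ y σ) (h1 σ) (h2 σ)
  rw [h5]
  exact comp_ge hℓ hz hsep hc _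

lemma comp_smul (z : Fin K → ℝ) (R : Fin K → Space) (r : ℝ) (f : 𝓢(Config N, ℂ)) :
    comp z R ((r : ℂ) • f) = r ^ 2 * comp z R f := by
  unfold comp
  have e1 : ∀ i c, ∫ x : Config N, ‖dv ((r : ℂ) • f) (ee i c) x‖ ^ 2 =
      r ^ 2 * ∫ x : Config N, ‖dv f (ee i c) x‖ ^ 2 := by
    intro i c
    rw [← integral_const_mul]
    congr 1
    funext x
    rw [dv_eq, dv_eq, LineDeriv.lineDerivOp_smul, SchwartzMap.smul_apply, norm_smul, mul_pow,
      Complex.norm_real, Real.norm_eq_abs, sq_abs]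
  have e2 : ∫ x : Config N, pot z R x * ‖((r : ℂ) • f) x‖ ^ 2 =
      r ^ 2 * ∫ x : Config N, pot z R x * ‖f x‖ ^ 2 := by
    rw [← integral_const_mul]
    congr 1
    funext x
    rw [SchwartzMap.smul_apply, norm_smul, mul_pow,
      Complex.norm_real, Real.norm_eq_abs, sq_abs]
    ring
  simp_rw [e1, e2, ← Finset.mul_sum]
  ring

lemma comp_zero' (z : Fin K → ℝ) (R : Fin K → Space) : comp (M := N) z R 0 = 0 := by
  have := comp_smul z R 0 (0 : 𝓢(Config N, ℂ))
  simpa using this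

/-- Trial functions for the frozen statement. -/
lemma Eset_trial {a κ ℓ D : ℝ} (ha0 : 0 < a) (ha1 : a ≤ 1) (hκ : 0 < κ) (hκ1 : κ ≤ 1)
    (hℓ0 : 0 < ℓ) (hℓ : 6 ≤ a * ℓ) (hD : 0 < D) {z : Fin K → ℝ} (hz : ∀ k, 0 ≤ z k)
    {R : Fin K → Space} {l : ℝ}
    (hR : ∀ j k, j ≠ k → D + 2 * ℓ ≤ ‖l • R j - l • R k‖) (b : Fin N → Fin K)
    (hb : Function.Injective b) (hzb : ∀ i, z (b i) = 2 * a) :
    ∃ E ∈ Eset K N z R l, E ≤ Eup N a ℓ κ D := by
  have hs : 0 < κ ^ 3 := by positivity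
  obtain ⟨hpos, hle⟩ := trial (R := fun j => l • R j) ha0 ha1 hκ hκ1 hℓ0 hℓ hD hz hR b hb hzb hs
  set f := f0 a hℓ0 hs (fun j => l • R j) b with hf
  set I := ∫ x : Config N, ‖f x‖ ^ 2 with hI
  set r : ℝ := 1 / Real.sqrt I with hr
  have hrI : r ^ 2 * I = 1 := by
    rw [hr, div_pow, one_pow, Real.sq_sqrt hpos.le]
    field_simp
  -- the wave function
  set ψ : (Fin N → Space) → (Fin N → Fin 2) → ℂ := fun y σ =>
    if σ = (fun _ => 0) then
      (r : ℂ) * ((F0 a ℓ (κ ^ 3) (fun j => l • R j) b (toCL N y) : ℝ) : ℂ) else 0 with hψ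
  have hψ0 : (fun y => ψ y (fun _ => 0)) = fun y =>
      (r : ℂ) * ((F0 a ℓ (κ ^ 3) (fun j => l • R j) b (toCL N y) : ℝ) : ℂ) := by
    funext y
    rw [hψ]
    simp
  have hψ1 : ∀ σ : Fin N → Fin 2, σ ≠ (fun _ => 0) → (fun y => ψ y σ) = fun y => 0 := by
    intro σ hσ
    funext y
    simp only [hψ]
    rw [if_neg hσ]
  have hcd : ∀ σ : Fin N → Fin 2, ContDiff ℝ (⊤ : ℕ∞) (fun y => ψ y σ) := by
    intro σ
    by_cases h : σ = (fun _ => 0)
    · rw [h, hψ0]
      refine contDiff_const.mul ?_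
      exact Complex.ofRealCLM.contDiff.comp ((F0_contDiff hs _ b).comp (toCL N).contDiff)
    · rw [hψ1 σ h]
      exact contDiff_const
  have hcs : ∀ σ : Fin N → Fin 2, HasCompactSupport (fun y => ψ y σ) := by
    intro σ
    by_cases h : σ = (fun _ => 0)
    · rw [h, hψ0]
      have h1 : HasCompactSupport (fun y : Fin N → Space =>
          F0 a ℓ (κ ^ 3) (fun j => l • R j) b (toCL N y)) :=
        (F0_support hℓ0 _ b).comp_homeomorph (toCL N).toHomeomorph
      exact (h1.comp_left (g := fun t : ℝ => (t : ℂ)) (by simp)).mul_left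
    · rw [hψ1 σ h]
      exact HasCompactSupport.zero
  have hpull0 : pull (fun y => ψ y (fun _ => 0)) (hcd _) (hcs _) = (r : ℂ) • f := by
    ext x
    rw [pull_apply, SchwartzMap.smul_apply, hf, f0_apply]
    rw [hψ]
    simp
  have hpull1 : ∀ σ : Fin N → Fin 2, σ ≠ (fun _ => 0) →
      pull (fun y => ψ y σ) (hcd σ) (hcs σ) = 0 := by
    intro σ hσ
    ext x
    rw [pull_apply]
    have := congrFun (hψ1 σ hσ) ((toCL N).symm x)
    simpa using this
  refine ⟨_, ⟨ψ, hcd, hcs, ?_, ?_, rfl⟩, ?_⟩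
  · -- antisymmetry
    intro π x σ
    simp only [hψ]
    by_cases h : σ = fun _ => 0
    · have h2 : (fun i => σ (π i)) = fun _ => 0 := by
        rw [h]
      rw [if_pos h2, if_pos h]
      have h3 : F0 a ℓ (κ ^ 3) (fun j => l • R j) b (toCL N fun i => x (π i)) =
          sg π * F0 a ℓ (κ ^ 3) (fun j => l • R j) b (toCL N x) :=
        F0_perm a ℓ (κ ^ 3) (fun j => l • R j) b (toCL N x) π
      rw [h3]
      unfold sg
      push_cast
      ring
    · have h2 : ¬ ((fun i => σ (π i)) = fun _ => 0) := by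
        intro h3
        apply h
        funext i
        have := congrFun h3 (π⁻¹ i)
        simpa using this
      rw [if_neg h2, if_neg h]
      simp
  · -- normalisation
    rw [Finset.sum_eq_single (fun _ => 0)]
    · rw [pull_norm (fun y => ψ y (fun _ => 0)) (hcd _) (hcs _), hpull0, ← hrI, hI,
        ← integral_const_mul]
      congr 1
      funext x
      rw [SchwartzMap.smul_apply, norm_smul, mul_pow,
        Complex.norm_real, Real.norm_eq_abs, sq_abs]
    · intro σ _ hσ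
      rw [pull_norm (fun y => ψ y σ) (hcd _) (hcs _), hpull1 σ hσ]
      simp
    · intro h
      exact absurd (Finset.mem_univ _) h
  · -- energy
    rw [Finset.sum_eq_single (fun _ => 0)]
    · have h5 := pull_energy z (fun j => l • R j) (fun y => ψ y (fun _ => 0)) (hcd _) (hcs _)
      rw [h5, hpull0, comp_smul]
      calc r ^ 2 * comp z (fun j => l • R j) f ≤ r ^ 2 * (Eup N a ℓ κ D * I) :=
            mul_le_mul_of_nonneg_left hle (by positivity)
        _ = Eup N a ℓ κ D * (r ^ 2 * I) := by ring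
        _ = Eup N a ℓ κ D := by rw [hrI, mul_one]
    · intro σ _ hσ
      have h5 := pull_energy z (fun j => l • R j) (fun y => ψ y σ) (hcd _) (hcs _)
      rw [h5, hpull1 σ hσ, comp_zero']
    · intro h
      exact absurd (Finset.mem_univ _) h

end Pool.Agent.Helper67.Dil
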