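import Pool.Agent.Helper67.Dil.Trial
import Pool.Agent.Helper67.Conv.LocalEnergy

set_option autoImplicit false
set_option linter.unusedSectionVars false
open MeasureTheory SchwartzMap
open scoped RealInnerProductSpace ContDiff

namespace Pool.Agent.Helper67.Dil

open Pool.Agent.Helper67.Conv (claim1)

lemma claim2 {a l q g z w s : ℝ} (ha0 : 0 < a) (ha1 : a ≤ 1) (hl : 6 ≤ a * l) (hl0 : 0 < l)
    (hq : 0 ≤ q) (hg : 0 < g)
    (hg2 : g ^ 2 = q + s ^ 2)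
    (hs : s ^ 2 ≤ 1) (hz : z * l ^ 2 = q) (hz1 : z ≤ 1) (hw : w * (1 - z) = 1) (hw0 : 0 < w) :
    3 * w ^ 2 + 4 * z * w ^ 3 - 2 * a * q * w ^ 2 / g - 2 * z * w ^ 4 ≤ 8 := by
  have hz0 : 0 ≤ z := by
    by_contra hc
    rw [not_le] at hc
    have : z * l ^ 2 < 0 := mul_neg_of_neg_of_pos hc (by positivity)
    linarith
  by_cases hc : z ≤ 1 / 4
  · have hw1 : w ≤ 4 / 3 := by nlinarith
    have h1 : w ^ 2 ≤ 16 / 9 := by nlinarith
    have h2 : w ^ 3 ≤ 64 / 27 := by nlinarith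
    have h3 : 0 ≤ 2 * a * q * w ^ 2 / g := by positivity
    have h4 : 0 ≤ 2 * z * w ^ 4 := by positivity
    have h5 : 4 * z * w ^ 3 ≤ 1 * w ^ 3 :=
      mul_le_mul_of_nonneg_right (by linarith) (by positivity)
    linarith
  · rw [not_le] at hc
    have hal : 36 ≤ (a * l) ^ 2 := by nlinarith
    have haq : 9 ≤ a ^ 2 * q := by
      have e : a ^ 2 * q = z * (a * l) ^ 2 := by rw [← hz]; ring
      rw [e]
      nlinarith
    have hq9 : 9 ≤ q := by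
      have : a ^ 2 * q ≤ 1 * q := mul_le_mul_of_nonneg_right (by nlinarith) hq
      linarith
    have h1 : 3 ≤ 2 * a * q / g := by
      rw [le_div_iff₀ hg]
      by_contra hcon
      rw [not_le] at hcon
      have h2 := mul_self_lt_mul_self (by positivity : 0 ≤ 2 * a * q) hcon
      have h3 : 2 * a * q * (2 * a * q) = 4 * q * (a ^ 2 * q) := by ring
      have h4 : 3 * g * (3 * g) = 9 * (q + s ^ 2) := by rw [← hg2]; ring
      rw [h3, h4] at h2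
      nlinarith
    have h2 : 3 * w ^ 2 ≤ 2 * a * q * w ^ 2 / g := by
      have : 2 * a * q * w ^ 2 / g = (2 * a * q / g) * w ^ 2 := by ring
      rw [this]
      exact mul_le_mul_of_nonneg_right h1 (by positivity)
    have h3 : w ^ 3 * (2 - w) ≤ 27 / 16 := by
      have : 27 / 16 - w ^ 3 * (2 - w) = (w - 3 / 2) ^ 2 * (w ^ 2 + w + 3 / 4) := by ring
      have h4 : 0 ≤ (w - 3 / 2) ^ 2 * (w ^ 2 + w + 3 / 4) := by positivity
      linarith
    have h4 : 4 * z * w ^ 3 - 2 * z * w ^ 4 ≤ 27 / 8 := by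
      have e : 4 * z * w ^ 3 - 2 * z * w ^ 4 = 2 * z * (w ^ 3 * (2 - w)) := by ring
      rw [e]
      nlinarith
    linarith

/-- The one-electron local energy bound. -/
lemma local_energy {a κ l q : ℝ} (ha0 : 0 < a) (ha1 : a ≤ 1) (hκ : 0 < κ) (hκ1 : κ ≤ 1)
    (hl0 : 0 < l) (hl : 6 ≤ a * l) (hq : 0 < q) (hql : q < l ^ 2) :
    (3 * GG a l (κ ^ 3) q + 2 * q * GG' a l (κ ^ 3) q - q * GG a l (κ ^ 3) q ^ 2) -
      2 * a / Real.sqrt q ≤ -(a ^ 2) + 2 * κ ^ 2 + 16 / l ^ 2 := by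
  have hl2 : 0 < l ^ 2 := by positivity
  set g := Real.sqrt (q + (κ ^ 3) ^ 2) with hgdef
  have hg : 0 < g := Real.sqrt_pos.mpr (by positivity)
  have hg2 : g ^ 2 = q + (κ ^ 3) ^ 2 := Real.sq_sqrt (by positivity)
  set r := Real.sqrt q with hrdef
  have hr : 0 < r := Real.sqrt_pos.mpr hq
  have hr2 : r ^ 2 = q := Real.sq_sqrt hq.le
  have c1 := claim1 hκ hr hg (by rw [hg2, hr2]; ring)
  have hlq : 0 < l ^ 2 - q := by linarith
  set w := l ^ 2 / (l ^ 2 - q) with hw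
  set z := q / l ^ 2 with hz
  have hzl : z * l ^ 2 = q := by rw [hz]; field_simp
  have hw0 : 0 < w := by positivity
  have hwz : w * (1 - z) = 1 := by
    rw [hw, hz]
    field_simp
  have hz1 : z ≤ 1 := by
    rw [hz, div_le_one hl2]
    exact hql.le
  have hκ6 : (κ ^ 3) ^ 2 ≤ 1 := by
    have : κ ^ 3 ≤ 1 := pow_le_one₀ hκ.le hκ1
    have h0 : 0 < κ ^ 3 := by positivity
    nlinarith
  have c2 := claim2 ha0 ha1 hl hl0 hq.le hg hg2 hκ6 hzl hz1 hwz hw0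
  have hG : GG a l (κ ^ 3) q = a / g + 2 * w ^ 2 / l ^ 2 := by
    unfold GG
    rw [← hgdef, hw]
    field_simp
  have hG' : GG' a l (κ ^ 3) q = -(a / 2) / g ^ 3 + 4 * w ^ 3 / l ^ 4 := by
    unfold GG'
    rw [← hgdef, hw]
    field_simp
  have key : (3 * GG a l (κ ^ 3) q + 2 * q * GG' a l (κ ^ 3) q - q * GG a l (κ ^ 3) q ^ 2) -
      2 * a / r = 2 * a * (1 / g + κ ^ 6 / (2 * g ^ 3) + a * (κ ^ 6 / (2 * g ^ 2)) - 1 / r) -
        a ^ 2 +
      2 * ((3 * w ^ 2 + 4 * z * w ^ 3 - 2 * a * q * w ^ 2 / g - 2 * z * w ^ 4) / l ^ 2) := by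
    rw [hG, hG']
    have hq' : q = g ^ 2 - κ ^ 6 := by rw [hg2]; ring
    have e1 : (3 * (a / g + 2 * w ^ 2 / l ^ 2) +
        2 * q * (-(a / 2) / g ^ 3 + 4 * w ^ 3 / l ^ 4) - q * (a / g + 2 * w ^ 2 / l ^ 2) ^ 2) =
        2 * (3 * a / (2 * g) - a * q / (2 * g ^ 3) - a ^ 2 * q / (2 * g ^ 2) + 3 * w ^ 2 / l ^ 2 +
        4 * (q / l ^ 2) * w ^ 3 / l ^ 2 - 2 * a * q * w ^ 2 / g / l ^ 2 -
        2 * (q / l ^ 2) * w ^ 4 / l ^ 2) := by
      field_simp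
      ring
    have e2 : 3 * a / (2 * g) - a * q / (2 * g ^ 3) - a ^ 2 * q / (2 * g ^ 2) =
        a * (1 / g + κ ^ 6 / (2 * g ^ 3) + a * (κ ^ 6 / (2 * g ^ 2))) - a ^ 2 / 2 := by
      rw [hq']
      field_simp
      ring
    rw [e1, e2, ← hz]
    ring
  rw [key]
  have c3 : (3 * w ^ 2 + 4 * z * w ^ 3 - 2 * a * q * w ^ 2 / g - 2 * z * w ^ 4) / l ^ 2 ≤
      8 / l ^ 2 := div_le_div_of_nonneg_right c2 hl2.le
  have c4 : a * (κ ^ 6 / (2 * g ^ 2)) ≤ κ ^ 6 / (2 * g ^ 2) :=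
    mul_le_of_le_one_left (by positivity) ha1
  have c5 : 2 * a * (1 / g + κ ^ 6 / (2 * g ^ 3) + a * (κ ^ 6 / (2 * g ^ 2)) - 1 / r) ≤
      2 * a * κ ^ 2 := mul_le_mul_of_nonneg_left (by linarith) (by positivity)
  have c6 : 2 * a * κ ^ 2 ≤ 2 * κ ^ 2 := by
    have : 0 ≤ κ ^ 2 := by positivity
    nlinarith
  have c7 : 16 / l ^ 2 = 2 * (8 / l ^ 2) := by ring
  rw [c7]
  linarith

end Pool.Agent.Helper67.Dil
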