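import Pool.Agent.Helper67.Conv.KinLower

set_option autoImplicit false
set_option linter.unusedSectionVars false
open MeasureTheory SchwartzMap
open scoped RealInnerProductSpace

namespace Pool.Agent.Helper67.Dil

open Pool.Agent.Helper67.Conv

variable {M K : ℕ}

/-- The vector field. -/
noncomputable def Gf (l ε : ℝ) (z : Fin K → ℝ) (R : Fin K → Space) (i : Fin M) (c : Fin 3)
    (x : Config M) : ℝ :=
  ∑ k, z k / 2 * hh l ε (qq x i (R k)) (WithLp.ofLp x (i, c) - WithLp.ofLp (R k) c)

/-- The derivative of its `c`-th component in direction `c`. -/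
noncomputable def Gf' (l ε : ℝ) (z : Fin K → ℝ) (R : Fin K → Space) (i : Fin M) (c : Fin 3)
    (x : Config M) : ℝ :=
  ∑ k, z k / 2 * hh' l ε (qq x i (R k)) (WithLp.ofLp x (i, c) - WithLp.ofLp (R k) c)

lemma Gf_hasLineDerivAt (l ε : ℝ) (hε : 0 < ε) (z : Fin K → ℝ) (R : Fin K → Space) (i : Fin M)
    (c : Fin 3) (x : Config M) :
    HasLineDerivAt ℝ (Gf l ε z R i c) (Gf' l ε z R i c x) x (ee i c) := by
  unfold HasLineDerivAt
  have h : (fun t : ℝ => Gf l ε z R i c (x + t • ee i c)) = fun t : ℝ =>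
      ∑ k, z k / 2 * hh l ε (qq x i (R k) + 2 * t * (WithLp.ofLp x (i, c) -
        WithLp.ofLp (R k) c) + t ^ 2)
        ((WithLp.ofLp x (i, c) - WithLp.ofLp (R k) c) + t) := by
    funext t
    unfold Gf
    refine Finset.sum_congr rfl fun k _ => ?_
    rw [qq_add, add_ee]
    simp only [if_true]
    congr 2
    ring
  rw [h]
  unfold Gf'
  apply HasDerivAt.fun_sum
  intro k _
  exact (hh_hasDerivAt l ε _ _ hε (qq_nonneg _ _ _)).const_mul (z k / 2)

lemma Gf_continuous (l ε : ℝ) (hε : 0 < ε) (z : Fin K → ℝ) (R : Fin K → Space) (i : Fin M)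
    (c : Fin 3) : Continuous (Gf (M := M) l ε z R i c) := by
  unfold Gf hh
  refine continuous_finsetSum _ fun k _ => ?_
  have h1 := qq_continuous i (R k)
  have h2 := chi_continuous l
  refine Continuous.const_mul ?_ (z k / 2)
  refine (h2.comp h1).mul (Continuous.div (by fun_prop) (by fun_prop) ?_)
  intro x
  exact (sqrt_pos' hε (qq_nonneg _ _ _)).ne'

lemma Gf'_continuous (l ε : ℝ) (hε : 0 < ε) (z : Fin K → ℝ) (R : Fin K → Space) (i : Fin M)
    (c : Fin 3) : Continuous (Gf' (M := M) l ε z R i c) := by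
  unfold Gf' hh'
  refine continuous_finsetSum _ fun k _ => ?_
  have h1 := qq_continuous i (R k)
  have h2 := chi_continuous l
  have h3 := chi'_continuous l
  have hne : ∀ x : Config M, Real.sqrt (qq x i (R k) + ε ^ 2) ≠ 0 :=
    fun x => (sqrt_pos' hε (qq_nonneg _ _ _)).ne'
  refine Continuous.const_mul ?_ (z k / 2)
  refine Continuous.add ?_ ?_
  · refine ((h3.comp h1).const_mul 2).mul (Continuous.div (by fun_prop) (by fun_prop) hne)
  · refine (h2.comp h1).mul (Continuous.sub ?_ ?_)
    · exact Continuous.div (by fun_prop) (by fun_prop) hne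
    · refine Continuous.div (by fun_prop) (by fun_prop) ?_
      intro x
      exact pow_ne_zero 3 (hne x)

/-- The limiting one body potential bound. -/
noncomputable def bb (l : ℝ) (z : Fin K → ℝ) (R : Fin K → Space) (i : Fin M) (x : Config M) : ℝ :=
  ∑ k, (z k ^ 2 / 4 * chi l (qq x i (R k)) ^ 2 -
    z k * (chi' l (qq x i (R k)) * Real.sqrt (qq x i (R k))))

/-- The pointwise bound for the regularised field. -/
lemma field_bound {l ε : ℝ} (hl : 0 < l) (hε : 0 < ε) {z : Fin K → ℝ} (hz : ∀ k, 0 ≤ z k)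
    {R : Fin K → Space} (hsep : Sep l R)
    (i : Fin M) (x : Config M) :
    (∑ k, z k * (chi l (qq x i (R k)) / Real.sqrt (qq x i (R k) + ε ^ 2))) - bb l z R i x ≤
      ∑ c, (Gf' l ε z R i c x - Gf l ε z R i c x ^ 2) := by
  -- derivative part
  have h1 : ∀ k : Fin K, z k * (chi l (qq x i (R k)) / Real.sqrt (qq x i (R k) + ε ^ 2)) +
      z k * (chi' l (qq x i (R k)) * Real.sqrt (qq x i (R k))) ≤
      ∑ c, z k / 2 * hh' l ε (qq x i (R k)) (WithLp.ofLp x (i, c) - WithLp.ofLp (R k) c) := by
    intro k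
    set q := qq x i (R k) with hqdef
    have hq : 0 ≤ q := qq_nonneg _ _ _
    have hs := sqrt_pos' hε hq
    set s := Real.sqrt (q + ε ^ 2) with hsdef
    have hs2 : s ^ 2 = q + ε ^ 2 := Real.sq_sqrt (by positivity)
    have e1 : ∑ c, hh' l ε q (WithLp.ofLp x (i, c) - WithLp.ofLp (R k) c) =
        2 * chi' l q * (q / s) + chi l q * (3 / s - q / s ^ 3) := by
      have hq3 : ∑ c, (WithLp.ofLp x (i, c) - WithLp.ofLp (R k) c) ^ 2 = q := rfl
      have gen : ∀ A B : ℝ, ∑ c, (2 * A * ((WithLp.ofLp x (i, c) - WithLp.ofLp (R k) c) ^ 2 / s) +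
          B * (1 / s - (WithLp.ofLp x (i, c) - WithLp.ofLp (R k) c) ^ 2 / s ^ 3)) =
          2 * A * ((∑ c, (WithLp.ofLp x (i, c) - WithLp.ofLp (R k) c) ^ 2) / s) +
          B * (3 / s - (∑ c, (WithLp.ofLp x (i, c) - WithLp.ofLp (R k) c) ^ 2) / s ^ 3) := by
        intro A B
        simp only [Fin.sum_univ_three]
        ring
      rw [hq3] at gen
      unfold hh'
      exact gen (chi' l q) (chi l q)
    rw [← Finset.mul_sum, e1]
    have e2 : q / s ≤ Real.sqrt q := by
      rw [div_le_iff₀ hs]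
      calc q = Real.sqrt q * Real.sqrt q := (Real.mul_self_sqrt hq).symm
        _ ≤ Real.sqrt q * s :=
          mul_le_mul_of_nonneg_left (Real.sqrt_le_sqrt (by nlinarith [sq_nonneg ε]))
            (Real.sqrt_nonneg _)
    have e3 : chi' l q * Real.sqrt q ≤ chi' l q * (q / s) :=
      mul_le_mul_of_nonpos_left e2 (chi'_nonpos l q)
    have e4 : q / s ^ 3 ≤ 1 / s := by
      rw [div_le_div_iff₀ (by positivity) hs]
      have : q ≤ s ^ 2 := by rw [hs2]; nlinarith [sq_nonneg ε]
      nlinarith
    have e5 : 2 / s ≤ 3 / s - q / s ^ 3 := by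
      have : 3 / s = 2 / s + 1 / s := by ring
      linarith
    have e6 : chi l q * (2 / s) ≤ chi l q * (3 / s - q / s ^ 3) :=
      mul_le_mul_of_nonneg_left e5 (chi_nonneg l q)
    have e7 : z k * (chi l q / s) + z k * (chi' l q * Real.sqrt q) =
        z k / 2 * (2 * (chi' l q * Real.sqrt q) + chi l q * (2 / s)) := by ring
    rw [e7]
    refine mul_le_mul_of_nonneg_left ?_ (by have := hz k; positivity)
    linarith
  have h2 : ∑ c, Gf' l ε z R i c x =
      ∑ k, ∑ c, z k / 2 * hh' l ε (qq x i (R k))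
        (WithLp.ofLp x (i, c) - WithLp.ofLp (R k) c) := by
    unfold Gf'
    rw [Finset.sum_comm]
  -- square part
  have h3 : ∑ c, Gf l ε z R i c x ^ 2 ≤ ∑ k, z k ^ 2 / 4 * chi l (qq x i (R k)) ^ 2 := by
    by_cases hex : ∃ j, qq x i (R j) < l ^ 2
    · obtain ⟨j, hj⟩ := hex
      have hzz : ∀ k, k ≠ j → chi l (qq x i (R k)) = 0 := fun k hk =>
        chi_eq_zero hl (sep_unique hsep x i hj hl hk)
      have hG : ∀ c, Gf l ε z R i c x =
          z j / 2 * hh l ε (qq x i (R j)) (WithLp.ofLp x (i, c) - WithLp.ofLp (R j) c) := by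
        intro c
        unfold Gf
        apply Finset.sum_eq_single j
        · intro k _ hk
          unfold hh
          rw [hzz k hk, zero_mul, mul_zero]
        · intro h
          exact absurd (Finset.mem_univ j) h
      have hR : ∑ k, z k ^ 2 / 4 * chi l (qq x i (R k)) ^ 2 =
          z j ^ 2 / 4 * chi l (qq x i (R j)) ^ 2 := by
        apply Finset.sum_eq_single j
        · intro k _ hk
          rw [hzz k hk]
          ring
        · intro h
          exact absurd (Finset.mem_univ j) h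
      rw [hR]
      simp_rw [hG]
      unfold hh
      set q := qq x i (R j) with hqdef
      have hq : 0 ≤ q := qq_nonneg _ _ _
      have hs := sqrt_pos' hε hq
      set s := Real.sqrt (q + ε ^ 2) with hsdef
      have hs2 : s ^ 2 = q + ε ^ 2 := Real.sq_sqrt (by positivity)
      have e1 : ∑ c, (z j / 2 * (chi l q * ((WithLp.ofLp x (i, c) -
          WithLp.ofLp (R j) c) / s))) ^ 2 =
          z j ^ 2 / 4 * chi l q ^ 2 * (q / s ^ 2) := by
        have : ∀ c, (z j / 2 * (chi l q * ((WithLp.ofLp x (i, c) -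
            WithLp.ofLp (R j) c) / s))) ^ 2 =
            z j ^ 2 / 4 * chi l q ^ 2 / s ^ 2 *
              (WithLp.ofLp x (i, c) - WithLp.ofLp (R j) c) ^ 2 := by
          intro c
          ring
        simp_rw [this]
        rw [← Finset.mul_sum]
        have : ∑ c, (WithLp.ofLp x (i, c) - WithLp.ofLp (R j) c) ^ 2 = q := rfl
        rw [this]
        ring
      rw [e1]
      have e2 : q / s ^ 2 ≤ 1 := by
        rw [div_le_one (by positivity), hs2]
        nlinarith [sq_nonneg ε]
      exact mul_le_of_le_one_right (by positivity) e2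
    · push Not at hex
      have hG : ∀ c, Gf l ε z R i c x = 0 := by
        intro c
        unfold Gf
        apply Finset.sum_eq_zero
        intro k _
        unfold hh
        rw [chi_eq_zero hl (hex k), zero_mul, mul_zero]
      simp_rw [hG]
      have : ∑ c : Fin 3, (0 : ℝ) ^ 2 = 0 := by simp
      rw [this]
      exact Finset.sum_nonneg fun k _ => by positivity
  have h4 := Finset.sum_le_sum (fun k (_ : k ∈ Finset.univ) => h1 k)
  rw [Finset.sum_add_distrib] at h4
  rw [Finset.sum_sub_distrib, h2]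
  unfold bb
  rw [Finset.sum_sub_distrib]
  linarith

/-- regularised one-body potential -/
noncomputable def aa (l ε : ℝ) (z : Fin K → ℝ) (R : Fin K → Space) (i : Fin M)
    (x : Config M) : ℝ :=
  ∑ k, z k * (chi l (qq x i (R k)) / Real.sqrt (qq x i (R k) + ε ^ 2))

/-- one-body potential -/
noncomputable def aa0 (l : ℝ) (z : Fin K → ℝ) (R : Fin K → Space) (i : Fin M)
    (x : Config M) : ℝ :=
  ∑ k, z k * (chi l (qq x i (R k)) / Real.sqrt (qq x i (R k)))

lemma exists_bb_bound {l : ℝ} (hl : 0 < l) (z : Fin K → ℝ) (R : Fin K → Space) (i : Fin M) :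
    ∃ A : ℝ, ∀ x : Config M, |bb l z R i x| ≤ A := by
  obtain ⟨C, hC0, hC⟩ := exists_bound_deriv
  refine ⟨∑ k, (z k ^ 2 / 4 + |z k| * (8 / 3 * C / l)), fun x => ?_⟩
  unfold bb
  refine (Finset.abs_sum_le_sum_abs _ _).trans ?_
  refine Finset.sum_le_sum fun k _ => ?_
  have h1 := chi_nonneg l (qq x i (R k))
  have h2 := chi_le_one l (qq x i (R k))
  have h3 := chi'_bound hC (q := qq x i (R k)) hl
  have h4 := tt_le_one l (qq x i (R k))
  have h5 : chi' l (qq x i (R k)) * Real.sqrt (qq x i (R k)) ≤ 0 :=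
    mul_nonpos_of_nonpos_of_nonneg (chi'_nonpos _ _) (Real.sqrt_nonneg _)
  have h6 : 8 / 3 * C / l * tt l (qq x i (R k)) ≤ 8 / 3 * C / l := by
    have : 0 ≤ 8 / 3 * C / l := by positivity
    nlinarith
  refine (abs_sub _ _).trans (add_le_add ?_ ?_)
  · rw [abs_mul, abs_of_nonneg (by positivity : 0 ≤ z k ^ 2 / 4), abs_of_nonneg (by positivity)]
    refine mul_le_of_le_one_right (by positivity) ?_
    exact pow_le_one₀ h1 h2
  · rw [abs_mul]
    refine mul_le_mul_of_nonneg_left ?_ (abs_nonneg _)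
    rw [abs_of_nonpos h5]
    linarith

lemma bb_continuous (l : ℝ) (z : Fin K → ℝ) (R : Fin K → Space) (i : Fin M) :
    Continuous (bb (M := M) l z R i) := by
  unfold bb
  refine continuous_finsetSum _ fun k _ => ?_
  have h1 := qq_continuous i (R k)
  have h2 := chi_continuous l
  have h3 := chi'_continuous l
  exact (((h2.comp h1).pow 2).const_mul _).sub
    (((h3.comp h1).mul (Real.continuous_sqrt.comp h1)).const_mul _)

lemma aa_continuous (l ε : ℝ) (hε : 0 < ε) (z : Fin K → ℝ) (R : Fin K → Space) (i : Fin M) :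
    Continuous (aa (M := M) l ε z R i) := by
  unfold aa
  refine continuous_finsetSum _ fun k _ => ?_
  have h1 := qq_continuous i (R k)
  have h2 := chi_continuous l
  refine Continuous.const_mul ?_ _
  refine (h2.comp h1).div (by fun_prop) ?_
  intro x
  exact (sqrt_pos' hε (qq_nonneg _ _ _)).ne'

lemma exists_aa_bound {l ε : ℝ} (hε : 0 < ε) (z : Fin K → ℝ) (R : Fin K → Space) (i : Fin M) :
    ∃ A : ℝ, ∀ x : Config M, |aa l ε z R i x| ≤ A := by
  refine ⟨∑ k, |z k| * (1 / ε), fun x => ?_⟩
  unfold aa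
  refine (Finset.abs_sum_le_sum_abs _ _).trans ?_
  refine Finset.sum_le_sum fun k _ => ?_
  have h1 := chi_nonneg l (qq x i (R k))
  have h2 := chi_le_one l (qq x i (R k))
  have hq := qq_nonneg x i (R k)
  have hs := sqrt_pos' hε hq
  have hse : ε ≤ Real.sqrt (qq x i (R k) + ε ^ 2) := by
    apply Real.le_sqrt_of_sq_le
    linarith
  rw [abs_mul]
  refine mul_le_mul_of_nonneg_left ?_ (abs_nonneg _)
  rw [abs_of_nonneg (by positivity)]
  exact div_le_div₀ zero_le_one h2 hε hse

lemma exists_Gf_bound {l ε : ℝ} (hε : 0 < ε) (z : Fin K → ℝ) (R : Fin K → Space) (i : Fin M)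
    (c : Fin 3) : ∃ A : ℝ, ∀ x : Config M, |Gf l ε z R i c x| ≤ A := by
  refine ⟨∑ k, |z k / 2| * 1, fun x => ?_⟩
  unfold Gf
  refine (Finset.abs_sum_le_sum_abs _ _).trans ?_
  refine Finset.sum_le_sum fun k _ => ?_
  rw [abs_mul]
  exact mul_le_mul_of_nonneg_left (hh_bound hε (qq_nonneg _ _ _) (le_qq x i c (R k)))
    (abs_nonneg _)

lemma exists_Gf'_bound {l ε : ℝ} (hl : 0 < l) (hε : 0 < ε) (z : Fin K → ℝ) (R : Fin K → Space)
    (i : Fin M) (c : Fin 3) : ∃ A : ℝ, ∀ x : Config M, |Gf' l ε z R i c x| ≤ A := by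
  obtain ⟨C, hC0, hC⟩ := exists_bound_deriv
  refine ⟨∑ k, |z k / 2| * (2 * (8 / 3 * C / l) + 2 / ε), fun x => ?_⟩
  unfold Gf'
  refine (Finset.abs_sum_le_sum_abs _ _).trans ?_
  refine Finset.sum_le_sum fun k _ => ?_
  rw [abs_mul]
  exact mul_le_mul_of_nonneg_left (hh'_bound hC hl hε (qq_nonneg _ _ _) (le_qq x i c (R k)))
    (abs_nonneg _)

/-- Regularised lower bound for the kinetic energy of electron `i`. -/
lemma kin_lower_reg {l ε : ℝ} (hl : 0 < l) (hε : 0 < ε) {z : Fin K → ℝ} (hz : ∀ k, 0 ≤ z k)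
    {R : Fin K → Space} (hsep : Sep l R)
    (f : 𝓢(Config M, ℂ)) (i : Fin M) :
    ∫ x : Config M, (aa l ε z R i x - bb l z R i x) * ‖f x‖ ^ 2 ≤
      ∑ c, ∫ x : Config M, ‖dv f (ee i c) x‖ ^ 2 := by
  have hG : ∀ c, Integrable (fun x : Config M =>
      (Gf' l ε z R i c x - Gf l ε z R i c x ^ 2) * ‖f x‖ ^ 2) := by
    intro c
    obtain ⟨A', hA'⟩ := exists_Gf'_bound (M := M) hl hε z R i c
    obtain ⟨A, hA⟩ := exists_Gf_bound (M := M) (l := l) hε z R i c
    refine bdd_mul_normSq_integrable f ?_ (A := A' + A ^ 2) ?_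
    · exact ((Gf'_continuous l ε hε z R i c).sub
        ((Gf_continuous l ε hε z R i c).pow 2)).aestronglyMeasurable
    · intro x
      refine (abs_sub _ _).trans (add_le_add (hA' x) ?_)
      rw [abs_pow]
      exact pow_le_pow_left₀ (abs_nonneg _) (hA x) 2
  have h1 : ∑ c, ∫ x : Config M, (Gf' l ε z R i c x - Gf l ε z R i c x ^ 2) * ‖f x‖ ^ 2 ≤
      ∑ c, ∫ x : Config M, ‖dv f (ee i c) x‖ ^ 2 := by
    refine Finset.sum_le_sum fun c _ => ?_
    obtain ⟨A', hA'⟩ := exists_Gf'_bound (M := M) hl hε z R i c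
    obtain ⟨A, hA⟩ := exists_Gf_bound (M := M) (l := l) hε z R i c
    exact kin_ineq f (ee i c) (Gf_continuous l ε hε z R i c).aestronglyMeasurable
      (Gf'_continuous l ε hε z R i c).aestronglyMeasurable
      hA hA' (Gf_hasLineDerivAt l ε hε z R i c)
  refine le_trans ?_ h1
  rw [← integral_finsetSum _ (fun c _ => hG c)]
  refine integral_mono ?_ (integrable_finsetSum _ fun c _ => hG c) ?_
  · obtain ⟨A', hA'⟩ := exists_aa_bound (M := M) (l := l) hε z R i
    obtain ⟨A, hA⟩ := exists_bb_bound (M := M) hl z R i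
    refine bdd_mul_normSq_integrable f ?_ (A := A' + A) ?_
    · exact ((aa_continuous l ε hε z R i).sub (bb_continuous l z R i)).aestronglyMeasurable
    · intro x
      exact (abs_sub _ _).trans (add_le_add (hA' x) (hA x))
  · intro x
    simp only
    rw [← Finset.sum_mul]
    refine mul_le_mul_of_nonneg_right ?_ (by positivity)
    exact field_bound hl hε hz hsep i x

lemma aa0_int (l : ℝ) (z : Fin K → ℝ) (R : Fin K → Space) (f : 𝓢(Config M, ℂ)) (i : Fin M) :
    Integrable (fun x : Config M => aa0 l z R i x * ‖f x‖ ^ 2) := by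
  have h : ∀ k ∈ (Finset.univ : Finset (Fin K)), Integrable (fun x : Config M =>
      z k * (chi l (qq x i (R k)) / Real.sqrt (qq x i (R k))) * ‖f x‖ ^ 2) := by
    intro k _
    have h0 : Integrable (fun x : Config M =>
        chi l (qq x i (R k)) / Real.sqrt (qq x i (R k)) * ‖f x‖ ^ 2) := by
      refine Integrable.mono' (att_int f i (R k)) ?_ ?_
      · apply Measurable.aestronglyMeasurable
        have h1 := (qq_continuous i (R k)).measurable
        have h2 := (chi_continuous l).measurable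
        have h3 : Measurable fun x : Config M => ‖f x‖ ^ 2 := by
          have : Continuous fun x : Config M => ‖f x‖ ^ 2 := by fun_prop
          exact this.measurable
        exact ((h2.comp h1).div h1.sqrt).mul h3
      · refine Filter.Eventually.of_forall fun x => ?_
        have h1 := chi_nonneg l (qq x i (R k))
        have h2 := chi_le_one l (qq x i (R k))
        rw [Real.norm_of_nonneg (by positivity)]
        refine mul_le_mul_of_nonneg_right ?_ (by positivity)
        exact div_le_div_of_nonneg_right h2 (Real.sqrt_nonneg _)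
    refine (h0.const_mul (z k)).congr (Filter.Eventually.of_forall fun x => ?_)
    simp only
    ring
  have h2 := integrable_finsetSum _ h
  refine h2.congr (Filter.Eventually.of_forall fun x => ?_)
  simp only
  unfold aa0
  rw [Finset.sum_mul]

lemma bb_int {l : ℝ} (hl : 0 < l) (z : Fin K → ℝ) (R : Fin K → Space) (f : 𝓢(Config M, ℂ))
    (i : Fin M) : Integrable (fun x : Config M => bb l z R i x * ‖f x‖ ^ 2) := by
  obtain ⟨A, hA⟩ := exists_bb_bound (M := M) hl z R i
  exact bdd_mul_normSq_integrable f (bb_continuous l z R i).aestronglyMeasurable hA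

/-- Lower bound for the kinetic energy of electron `i`. -/
lemma kin_lower {l : ℝ} (hl : 0 < l) {z : Fin K → ℝ} (hz : ∀ k, 0 ≤ z k)
    {R : Fin K → Space} (hsep : Sep l R)
    (f : 𝓢(Config M, ℂ)) (i : Fin M) :
    ∫ x : Config M, (aa0 l z R i x - bb l z R i x) * ‖f x‖ ^ 2 ≤
      ∑ c, ∫ x : Config M, ‖dv f (ee i c) x‖ ^ 2 := by
  set T : ℝ := ∑ c, ∫ x : Config M, ‖dv f (ee i c) x‖ ^ 2 with hT
  let ε : ℕ → ℝ := fun n => 1 / ((n : ℝ) + 1)
  have hε : ∀ n, 0 < ε n := fun n => by positivity
  have hlim : Filter.Tendsto (fun n => ∫ x : Config M,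
      (aa l (ε n) z R i x - bb l z R i x) * ‖f x‖ ^ 2) Filter.atTop
      (nhds (∫ x : Config M, (aa0 l z R i x - bb l z R i x) * ‖f x‖ ^ 2)) := by
    refine tendsto_integral_of_dominated_convergence
      (fun x => aa0 l z R i x * ‖f x‖ ^ 2 + ‖bb l z R i x * ‖f x‖ ^ 2‖) ?_ ?_ ?_ ?_
    · intro n
      have h1 := (aa_continuous (M := M) l (ε n) (hε n) z R i)
      have h2 := bb_continuous (M := M) l z R i
      exact (Continuous.mul (h1.sub h2) (by fun_prop)).aestronglyMeasurable
    · exact (aa0_int l z R f i).add (bb_int hl z R f i).norm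
    · intro n
      have hae : ∀ᵐ x : Config M, ∀ k, qq x i (R k) ≠ 0 := by
        rw [ae_all_iff]
        exact fun k => ae_qq_ne_zero i (R k)
      filter_upwards [hae] with x hx
      have h0 : 0 ≤ aa l (ε n) z R i x := by
        unfold aa
        refine Finset.sum_nonneg fun k _ => ?_
        have := chi_nonneg l (qq x i (R k))
        have := hz k
        positivity
      have h1 : aa l (ε n) z R i x ≤ aa0 l z R i x := by
        unfold aa aa0
        refine Finset.sum_le_sum fun k _ => ?_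
        have h1 := chi_nonneg l (qq x i (R k))
        have h2 : 0 < qq x i (R k) := lt_of_le_of_ne (qq_nonneg _ _ _) (hx k).symm
        have h3 : 0 < Real.sqrt (qq x i (R k)) := Real.sqrt_pos.mpr h2
        refine mul_le_mul_of_nonneg_left ?_ (hz k)
        refine div_le_div_of_nonneg_left h1 h3 ?_
        exact Real.sqrt_le_sqrt (by nlinarith [sq_nonneg (ε n)])
      rw [sub_mul]
      refine (norm_sub_le _ _).trans ?_
      refine add_le_add ?_ le_rfl
      rw [Real.norm_of_nonneg (by positivity)]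
      exact mul_le_mul_of_nonneg_right h1 (by positivity)
    · have hae : ∀ᵐ x : Config M, ∀ k, qq x i (R k) ≠ 0 := by
        rw [ae_all_iff]
        exact fun k => ae_qq_ne_zero i (R k)
      filter_upwards [hae] with x hx
      have hε0 : Filter.Tendsto ε Filter.atTop (nhds 0) := tendsto_one_div_add_atTop_nhds_zero_nat
      have haa : Filter.Tendsto (fun n => aa l (ε n) z R i x) Filter.atTop
          (nhds (aa0 l z R i x)) := by
        unfold aa aa0
        refine tendsto_finsetSum _ fun k _ => ?_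
        refine Filter.Tendsto.const_mul _ ?_
        refine Filter.Tendsto.div tendsto_const_nhds ?_ ?_
        · have h1 : Filter.Tendsto (fun n => qq x i (R k) + ε n ^ 2) Filter.atTop
              (nhds (qq x i (R k))) := by
            have h2 := (hε0.pow 2).const_add (qq x i (R k))
            simpa using h2
          exact (Real.continuous_sqrt.tendsto _).comp h1
        · have h2 : 0 < qq x i (R k) := lt_of_le_of_ne (qq_nonneg _ _ _) (hx k).symm
          exact (Real.sqrt_pos.mpr h2).ne'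
      exact (haa.sub_const _).mul_const _
  exact le_of_tendsto' hlim fun n => kin_lower_reg hl (hε n) hz hsep f i

end Pool.Agent.Helper67.Dil
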