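import Pool.Agent.Helper67.Dil.LocalEnergy

set_option autoImplicit false
set_option linter.unusedSectionVars false
open MeasureTheory SchwartzMap
open scoped RealInnerProductSpace ContDiff

namespace Pool.Agent.Helper67.Dil

open Pool.Agent.Helper67.Conv (Space Config pos Wave dv ee qq chi chi' tt Sep repul qq_add add_ee
  qq_nonneg near_iff)

variable {M K : ℕ}

/-- The interaction part on the support of the trial function. -/
lemma potential_le {l D : ℝ} (hD : 0 < D) {z : Fin K → ℝ} (hz : ∀ k, 0 ≤ z k)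
    {R : Fin K → Space} (hR : ∀ j k, j ≠ k → D + 2 * l ≤ ‖R j - R k‖) (b : Fin M → Fin K)
    (hb : Function.Injective b)
    (x : Config M) (hx : ∀ i, ‖pos x i - R (b i)‖ ≤ l) :
    pot z R x ≤ -(∑ i, z (b i) / ‖pos x i - R (b i)‖) + M ^ 2 / D := by
  have hrep : (∑ i : Fin M, ∑ j : Fin M, if i < j then 1 / ‖pos x i - pos x j‖ else 0) ≤
      ∑ i : Fin M, ∑ j : Fin M, 1 / D := by
    refine Finset.sum_le_sum fun i _ => Finset.sum_le_sum fun j _ => ?_
    split_ifs with hij
    · have hne : b i ≠ b j := fun h => hij.ne (hb h)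
      have h1 : D ≤ ‖pos x i - pos x j‖ := by
        have h4 := hR _ _ hne
        have e : R (b i) - R (b j) = -(pos x i - R (b i)) +
            (pos x i - pos x j) + (pos x j - R (b j)) := by abel
        have h := norm_add₃_le (a := -(pos x i - R (b i))) (b := pos x i - pos x j)
          (c := pos x j - R (b j))
        rw [norm_neg, ← e] at h
        have h2 := hx i
        have h3 := hx j
        linarith
      exact one_div_le_one_div_of_le hD h1
    · positivity
  have hatt : ∀ i : Fin M, z (b i) / ‖pos x i - R (b i)‖ ≤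
      ∑ k : Fin K, z k / ‖pos x i - R k‖ := fun i =>
    Finset.single_le_sum (f := fun k => z k / ‖pos x i - R k‖)
      (fun k _ => by have := hz k; positivity) (Finset.mem_univ (b i))
  have b4 := Finset.sum_le_sum (fun i (_ : i ∈ (Finset.univ : Finset (Fin M))) => hatt i)
  have b5 : (∑ i : Fin M, ∑ j : Fin M, 1 / D) = M ^ 2 / D := by
    simp only [Finset.sum_const, Finset.card_univ, Fintype.card_fin, nsmul_eq_mul]
    ring
  rw [b5] at hrep
  unfold pot repul
  linarith

/-- kinetic energy density after integration by parts -/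
noncomputable def kd (a l s : ℝ) (R : Fin K → Space) (b : Fin M → Fin K) (x : Config M) : ℝ :=
  ∑ i, ∑ c, -(Phi a l s R b x * ddPhi a l s R b i c x)

lemma kd_eq {a l s : ℝ} (hl : 0 < l) (hs : 0 < s) (R : Fin K → Space) (b : Fin M → Fin K)
    {x : Config M} (h : Phi a l s R b x ≠ 0) :
    kd a l s R b x = (∑ i, (3 * GG a l s (qq x i (R (b i))) +
      2 * qq x i (R (b i)) * GG' a l s (qq x i (R (b i))) -
      qq x i (R (b i)) * GG a l s (qq x i (R (b i))) ^ 2)) * Phi a l s R b x ^ 2 := by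
  unfold kd
  rw [Finset.sum_mul]
  refine Finset.sum_congr rfl fun i _ => ?_
  simp_rw [ddPhi_eq hl hs R b i _ h]
  set G := GG a l s (qq x i (R (b i)))
  set G' := GG' a l s (qq x i (R (b i)))
  have hq : qq x i (R (b i)) = ∑ c, (WithLp.ofLp x (i, c) - WithLp.ofLp (R (b i)) c) ^ 2 := rfl
  rw [hq]
  simp only [Fin.sum_univ_three]
  ring

/-- The energy bound -/
noncomputable def Eup (M : ℕ) (a l κ D : ℝ) : ℝ :=
  M * (-(a ^ 2) + 2 * κ ^ 2 + 16 / l ^ 2) + M ^ 2 / D

/-- The pointwise bound. -/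
lemma kd_le {a κ l D : ℝ} (ha0 : 0 < a) (ha1 : a ≤ 1) (hκ : 0 < κ) (hκ1 : κ ≤ 1)
    (hl0 : 0 < l) (hl : 6 ≤ a * l) (hD : 0 < D) {z : Fin K → ℝ} (hz : ∀ k, 0 ≤ z k)
    {R : Fin K → Space} (hR : ∀ j k, j ≠ k → D + 2 * l ≤ ‖R j - R k‖) (b : Fin M → Fin K)
    (hb : Function.Injective b) (hzb : ∀ i, z (b i) = 2 * a)
    (x : Config M) (hx : ∀ i k, qq x i (R k) ≠ 0) :
    kd a l (κ ^ 3) R b x + pot z R x * Phi a l (κ ^ 3) R b x ^ 2 ≤
      Eup M a l κ D * Phi a l (κ ^ 3) R b x ^ 2 := by
  have hs : 0 < κ ^ 3 := by positivity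
  by_cases h : Phi a l (κ ^ 3) R b x = 0
  · unfold kd
    rw [h]
    simp
  · rw [kd_eq hl0 hs _ _ h, ← add_mul]
    refine mul_le_mul_of_nonneg_right ?_ (by positivity)
    have hnear : ∀ i, ‖pos x i - R (b i)‖ ≤ l := fun i =>
      ((near_iff hl0 x i _).mp (lt_of_Phi_ne hl0 h i)).le
    have h1 := potential_le hD hz hR b hb x hnear
    have h2 : ∀ i, (3 * GG a l (κ ^ 3) (qq x i (R (b i))) +
      2 * qq x i (R (b i)) * GG' a l (κ ^ 3) (qq x i (R (b i))) -
      qq x i (R (b i)) * GG a l (κ ^ 3) (qq x i (R (b i))) ^ 2) ≤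
        (-(a ^ 2) + 2 * κ ^ 2 + 16 / l ^ 2) + z (b i) / ‖pos x i - R (b i)‖ := by
      intro i
      have h3 := local_energy ha0 ha1 hκ hκ1 hl0 hl
        (lt_of_le_of_ne (qq_nonneg x i (R (b i))) (hx i (b i)).symm)
        (lt_of_Phi_ne hl0 h i)
      rw [Conv.norm_pos_sub, hzb i]
      linarith
    have h3 := Finset.sum_le_sum (fun i (_ : i ∈ (Finset.univ : Finset (Fin M))) => h2 i)
    rw [Finset.sum_add_distrib, Finset.sum_const, Finset.card_univ, Fintype.card_fin,
      nsmul_eq_mul] at h3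
    unfold Eup
    linarith

lemma Phi_continuous {a l s : ℝ} (hs : 0 < s) (R : Fin K → Space) (b : Fin M → Fin K) :
    Continuous (Phi (M := M) a l s R b) := (Phi_contDiff hs R b).continuous

lemma dPhi_continuous {a l s : ℝ} (hs : 0 < s) (R : Fin K → Space) (b : Fin M → Fin K)
    (i : Fin M) (c : Fin 3) :
    Continuous (dPhi (M := M) a l s R b i c) := (dPhi_contDiff hs R b i c).continuous

lemma ddPhi_continuous {a l s : ℝ} (hs : 0 < s) (R : Fin K → Space) (b : Fin M → Fin K)
    (i : Fin M) (c : Fin 3) :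
    Continuous (ddPhi (M := M) a l s R b i c) := by
  unfold ddPhi
  exact (((dPhi_contDiff hs R b i c).fderiv_right (m := ∞) (by simp)).clm_apply
    contDiff_const).continuous

lemma dPhi_support {a l s : ℝ} (hl : 0 < l) (R : Fin K → Space) (b : Fin M → Fin K)
    (i : Fin M) (c : Fin 3) : HasCompactSupport (dPhi (M := M) a l s R b i c) := by
  refine (Phi_support (a := a) (s := s) hl R b).mono ?_
  intro x hx
  rw [Function.mem_support] at hx ⊢
  intro h
  exact hx (dPhi_zero i c h)

lemma ibp_integrable {a l s : ℝ} (hl : 0 < l) (hs : 0 < s) (R : Fin K → Space)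
    (b : Fin M → Fin K) (i : Fin M) (c : Fin 3) :
    Integrable (fun x : Config M => Phi a l s R b x * ddPhi a l s R b i c x) :=
  Continuous.integrable_of_hasCompactSupport
    ((Phi_continuous hs R b).mul (ddPhi_continuous hs R b i c)) (Phi_support hl R b).mul_right

lemma dPhi_sq_integrable {a l s : ℝ} (hl : 0 < l) (hs : 0 < s) (R : Fin K → Space)
    (b : Fin M → Fin K) (i : Fin M) (c : Fin 3) :
    Integrable (fun x : Config M => dPhi a l s R b i c x * dPhi a l s R b i c x) :=
  Continuous.integrable_of_hasCompactSupport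
    ((dPhi_continuous hs R b i c).mul (dPhi_continuous hs R b i c))
    (dPhi_support hl R b i c).mul_right

lemma ibp {a l s : ℝ} (hl : 0 < l) (hs : 0 < s) (R : Fin K → Space) (b : Fin M → Fin K)
    (i : Fin M) (c : Fin 3) :
    ∫ x : Config M, dPhi a l s R b i c x ^ 2 =
      ∫ x : Config M, -(Phi a l s R b x * ddPhi a l s R b i c x) := by
  have h1 : Differentiable ℝ (Phi (M := M) a l s R b) :=
    (Phi_contDiff hs R b).differentiable (by simp)
  have h2 : Differentiable ℝ (dPhi (M := M) a l s R b i c) :=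
    (dPhi_contDiff hs R b i c).differentiable (by simp)
  have h3 : Integrable (fun x : Config M => Phi a l s R b x * dPhi a l s R b i c x) :=
    Continuous.integrable_of_hasCompactSupport
      ((Phi_continuous hs R b).mul (dPhi_continuous hs R b i c)) (Phi_support hl R b).mul_right
  have := integral_bilinear_hasLineDerivAt_right_eq_neg_left_of_integrable
    (μ := (volume : Measure (Config M))) (B := ContinuousLinearMap.mul ℝ ℝ)
    (f := Phi a l s R b) (f' := dPhi a l s R b i c)
    (g := dPhi a l s R b i c) (g' := ddPhi a l s R b i c) (v := ee i c)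
    (by simpa using dPhi_sq_integrable hl hs R b i c)
    (by simpa using ibp_integrable hl hs R b i c) (by simpa using h3)
    (fun x _ => (h1 x).hasFDerivAt.hasLineDerivAt (ee i c))
    (fun x _ => (h2 x).hasFDerivAt.hasLineDerivAt (ee i c))
  simp only [ContinuousLinearMap.mul_apply'] at this
  rw [integral_neg, this, neg_neg]
  congr 1
  funext x
  ring

/-- Schwartz version -/
noncomputable def PhiS (a : ℝ) {l s : ℝ} (hl : 0 < l) (hs : 0 < s) (R : Fin K → Space)
    (b : Fin M → Fin K) : 𝓢(Config M, ℂ) :=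
  HasCompactSupport.toSchwartzMap (f := fun x => ((Phi a l s R b x : ℝ) : ℂ))
    ((Phi_support hl R b).comp_left (g := fun r : ℝ => (r : ℂ)) (by simp))
    (Complex.ofRealCLM.contDiff.comp (Phi_contDiff hs R b))

lemma PhiS_apply (a : ℝ) {l s : ℝ} (hl : 0 < l) (hs : 0 < s) (R : Fin K → Space)
    (b : Fin M → Fin K) (x : Config M) : PhiS a hl hs R b x = ((Phi a l s R b x : ℝ) : ℂ) := rfl

lemma norm_PhiS (a : ℝ) {l s : ℝ} (hl : 0 < l) (hs : 0 < s) (R : Fin K → Space)
    (b : Fin M → Fin K) (x : Config M) : ‖PhiS a hl hs R b x‖ ^ 2 = Phi a l s R b x ^ 2 := by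
  rw [PhiS_apply, Complex.norm_real, Real.norm_eq_abs, sq_abs]

/-- Energy bound for one product function. -/
lemma product_energy {a κ l D : ℝ} (ha0 : 0 < a) (ha1 : a ≤ 1) (hκ : 0 < κ) (hκ1 : κ ≤ 1)
    (hl0 : 0 < l) (hl : 6 ≤ a * l) (hD : 0 < D) {z : Fin K → ℝ} (hz : ∀ k, 0 ≤ z k)
    {R : Fin K → Space} (hR : ∀ j k, j ≠ k → D + 2 * l ≤ ‖R j - R k‖) (b : Fin M → Fin K)
    (hb : Function.Injective b) (hzb : ∀ i, z (b i) = 2 * a) :
    (∑ i, ∑ c, ∫ x : Config M, dPhi a l (κ ^ 3) R b i c x ^ 2) +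
      ∫ x : Config M, pot z R x * Phi a l (κ ^ 3) R b x ^ 2 ≤
      Eup M a l κ D * ∫ x : Config M, Phi a l (κ ^ 3) R b x ^ 2 := by
  have hs : 0 < κ ^ 3 := by positivity
  have hi : ∀ i c, Integrable (fun x : Config M =>
      -(Phi a l (κ ^ 3) R b x * ddPhi a l (κ ^ 3) R b i c x)) :=
    fun i c => (ibp_integrable hl0 hs R b i c).neg
  have hi2 : ∀ i, Integrable (fun x : Config M => ∑ c,
      -(Phi a l (κ ^ 3) R b x * ddPhi a l (κ ^ 3) R b i c x)) :=
    fun i => integrable_finsetSum _ fun c _ => hi i c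
  have e1 : (∑ i, ∑ c, ∫ x : Config M, dPhi a l (κ ^ 3) R b i c x ^ 2) =
      ∫ x : Config M, kd a l (κ ^ 3) R b x := by
    unfold kd
    rw [integral_finsetSum _ fun i _ => hi2 i]
    refine Finset.sum_congr rfl fun i _ => ?_
    rw [integral_finsetSum _ fun c _ => hi i c]
    refine Finset.sum_congr rfl fun c _ => ?_
    exact ibp hl0 hs R b i c
  have hk : Integrable (fun x : Config M => kd a l (κ ^ 3) R b x) := by
    unfold kd
    exact integrable_finsetSum _ fun i _ => hi2 i
  have hv : Integrable (fun x : Config M => pot z R x *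
      Phi a l (κ ^ 3) R b x ^ 2) := by
    have := pot_int z R (PhiS a hl0 hs R b)
    simpa only [norm_PhiS] using this
  have hn : Integrable (fun x : Config M => Phi a l (κ ^ 3) R b x ^ 2) := by
    have := Conv.normSq_integrable (PhiS a hl0 hs R b)
    simpa only [norm_PhiS] using this
  rw [e1, ← integral_add hk hv, ← integral_const_mul]
  refine integral_mono_ae (hk.add hv) (hn.const_mul _) ?_
  have hae : ∀ᵐ x : Config M, ∀ i k, qq x i (R k) ≠ 0 := by
    rw [ae_all_iff]
    intro i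
    rw [ae_all_iff]
    exact fun k => Conv.ae_qq_ne_zero i (R k)
  filter_upwards [hae] with x hx
  exact kd_le ha0 ha1 hκ hκ1 hl0 hl hD hz hR b hb hzb x hx

end Pool.Agent.Helper67.Dil
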