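import Pool.Agent.Helper67.Dil.Energy
import Pool.Agent.Helper67.Conv.Geometry

set_option autoImplicit false
set_option linter.unusedSectionVars false
open MeasureTheory SchwartzMap
open scoped RealInnerProductSpace ContDiff

namespace Pool.Agent.Helper67.Dil

open Pool.Agent.Helper67.Conv (Space Config pos Wave dv ee qq chi chi' tt Sep repul qq_add add_ee
  qq_nonneg near_iff)

variable {M K : ℕ}

/-- One electron trial function, as a function of the squared distance. -/
noncomputable def uu (a l s q : ℝ) : ℝ :=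
  expNegInvGlue (1 - q / l ^ 2) * Real.exp (-(a * Real.sqrt (q + s ^ 2)))

lemma uu_nonneg (a l s q : ℝ) : 0 ≤ uu a l s q :=
  mul_nonneg (expNegInvGlue.nonneg _) (Real.exp_pos _).le

lemma uu_pos {a l s q : ℝ} (hl : 0 < l) (h : q < l ^ 2) : 0 < uu a l s q := by
  refine mul_pos (expNegInvGlue.pos_of_pos ?_) (Real.exp_pos _)
  rw [sub_pos, div_lt_one (by positivity)]
  exact h

lemma uu_zero {a l s q : ℝ} (hl : 0 < l) (h : l ^ 2 ≤ q) : uu a l s q = 0 := by
  unfold uu
  rw [expNegInvGlue.zero_of_nonpos, zero_mul]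
  rw [sub_nonpos, one_le_div (by positivity)]
  exact h

lemma lt_of_uu_ne {a l s q : ℝ} (hl : 0 < l) (h : uu a l s q ≠ 0) : q < l ^ 2 := by
  by_contra hc
  exact h (uu_zero hl (not_lt.mp hc))

/-- minus twice the logarithmic derivative -/
noncomputable def GG (a l s q : ℝ) : ℝ := a / Real.sqrt (q + s ^ 2) + 2 * l ^ 2 / (l ^ 2 - q) ^ 2

/-- and its derivative -/
noncomputable def GG' (a l s q : ℝ) : ℝ :=
  -(a / 2) / (Real.sqrt (q + s ^ 2)) ^ 3 + 4 * l ^ 2 / (l ^ 2 - q) ^ 3

lemma uu_hasDerivAt {a l s q : ℝ} (hl : 0 < l) (hs : 0 < s) (hq : 0 ≤ q) (h : q < l ^ 2) :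
    HasDerivAt (uu a l s) (-(1 / 2) * GG a l s q * uu a l s q) q := by
  have hq2 : 0 < l ^ 2 - q := by linarith
  have hev : uu a l s =ᶠ[nhds q] fun q => Real.exp (-(1 - q / l ^ 2)⁻¹) *
      Real.exp (-(a * Real.sqrt (q + s ^ 2))) := by
    filter_upwards [Iio_mem_nhds h] with y hy
    unfold uu expNegInvGlue
    have : ¬ (1 - y / l ^ 2 ≤ 0) := by
      rw [not_le, sub_pos, div_lt_one (by positivity)]
      exact hy
    rw [if_neg this]
  have hne : 1 - q / l ^ 2 ≠ 0 := by
    have : 0 < 1 - q / l ^ 2 := by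
      rw [sub_pos, div_lt_one (by positivity)]
      exact h
    exact this.ne'
  have hs2 : 0 < q + s ^ 2 := by positivity
  have d1 : HasDerivAt (fun q : ℝ => 1 - q / l ^ 2) (-(1 / l ^ 2)) q := by
    have := ((hasDerivAt_id q).div_const (l ^ 2)).const_sub 1
    simpa using this
  have d2 := ((d1.inv hne).neg).exp
  have d3 : HasDerivAt (fun q : ℝ => q + s ^ 2) 1 q := by
    simpa using (hasDerivAt_id q).add_const (s ^ 2)
  have d4 := (((d3.sqrt hs2.ne').const_mul a).neg).exp
  have d5 := d2.mul d4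
  have d6 := d5.congr_of_eventuallyEq hev
  refine d6.congr_deriv ?_
  have huu : uu a l s q = Real.exp (-(1 - q / l ^ 2)⁻¹) * Real.exp (-(a * Real.sqrt (q + s ^ 2))) :=
    hev.eq_of_nhds
  rw [huu]
  unfold GG
  simp only [Pi.neg_apply, Pi.inv_apply]
  have hsq : Real.sqrt (q + s ^ 2) ≠ 0 := (Real.sqrt_pos.mpr hs2).ne'
  have hl2 : l ^ 2 - q ≠ 0 := hq2.ne'
  have e1 : 1 - q / l ^ 2 = (l ^ 2 - q) / l ^ 2 := by
    field_simp
  rw [e1]
  field_simp
  ring

lemma GG_hasDerivAt {a l s q : ℝ} (hs : 0 < s) (hq : 0 ≤ q) (h : q < l ^ 2) :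
    HasDerivAt (GG a l s) (GG' a l s q) q := by
  have hs2 : 0 < q + s ^ 2 := by positivity
  have hsq : Real.sqrt (q + s ^ 2) ≠ 0 := (Real.sqrt_pos.mpr hs2).ne'
  have hq2 : l ^ 2 - q ≠ 0 := by
    have : 0 < l ^ 2 - q := by linarith
    exact this.ne'
  have d3 : HasDerivAt (fun q : ℝ => q + s ^ 2) 1 q := by
    simpa using (hasDerivAt_id q).add_const (s ^ 2)
  have d4 := (hasDerivAt_const q a).div (d3.sqrt hs2.ne') hsq
  have d5 : HasDerivAt (fun q : ℝ => l ^ 2 - q) (-1) q := by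
    simpa using (hasDerivAt_id q).const_sub (l ^ 2)
  have d6 := (hasDerivAt_const q (2 * l ^ 2)).div (d5.pow 2) (pow_ne_zero 2 hq2)
  have d7 := d4.add d6
  refine d7.congr_deriv ?_
  unfold GG'
  simp only [Pi.pow_apply]
  field_simp
  ring

lemma qq_add_ne (x : Config M) (i j : Fin M) (c : Fin 3) (t : ℝ) (P : Space) (h : j ≠ i) :
    qq (x + t • ee i c) j P = qq x j P := by
  unfold qq
  refine Finset.sum_congr rfl fun c' _ => ?_
  have : WithLp.ofLp (x + t • ee i c) (j, c') = WithLp.ofLp x (j, c') := by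
    simp [ee, h]
  rw [this]

/-- Product trial function. -/
noncomputable def Phi (a l s : ℝ) (R : Fin K → Space) (b : Fin M → Fin K) (x : Config M) : ℝ :=
  ∏ i, uu a l s (qq x i (R (b i)))

lemma Phi_nonneg (a l s : ℝ) (R : Fin K → Space) (b : Fin M → Fin K) (x : Config M) :
    0 ≤ Phi a l s R b x := Finset.prod_nonneg fun i _ => uu_nonneg _ _ _ _

lemma lt_of_Phi_ne {a l s : ℝ} (hl : 0 < l) {R : Fin K → Space} {b : Fin M → Fin K}
    {x : Config M} (h : Phi a l s R b x ≠ 0) (i : Fin M) : qq x i (R (b i)) < l ^ 2 := by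
  unfold Phi at h
  rw [Finset.prod_ne_zero_iff] at h
  exact lt_of_uu_ne hl (h i (Finset.mem_univ i))

lemma qq_contDiff (i : Fin M) (P : Space) : ContDiff ℝ ∞ (fun x : Config M => qq x i P) := by
  unfold qq
  refine ContDiff.sum fun c _ => ?_
  refine ContDiff.pow (ContDiff.sub ?_ contDiff_const) 2
  exact (EuclideanSpace.proj (𝕜 := ℝ) (i, c) : Config M →L[ℝ] ℝ).contDiff

lemma uu_qq_contDiff {a l s : ℝ} (hs : 0 < s) (i : Fin M) (P : Space) :
    ContDiff ℝ ∞ (fun x : Config M => uu a l s (qq x i P)) := by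
  unfold uu
  have h1 := qq_contDiff i P
  refine ContDiff.mul ?_ ?_
  · exact expNegInvGlue.contDiff.comp (contDiff_const.sub (h1.div_const _))
  · refine ContDiff.exp (ContDiff.neg (contDiff_const.mul (ContDiff.sqrt (h1.add contDiff_const) ?_)))
    intro x
    have := qq_nonneg x i P
    positivity

lemma Phi_contDiff {a l s : ℝ} (hs : 0 < s) (R : Fin K → Space) (b : Fin M → Fin K) :
    ContDiff ℝ ∞ (Phi (M := M) a l s R b) := by
  unfold Phi
  exact contDiff_prod fun i _ => uu_qq_contDiff hs i (R (b i))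

/-- The support is bounded. -/
lemma Phi_support {a l s : ℝ} (hl : 0 < l) (R : Fin K → Space) (b : Fin M → Fin K) :
    HasCompactSupport (Phi (M := M) a l s R b) := by
  refine HasCompactSupport.intro (K := Metric.closedBall 0
    (Real.sqrt (∑ i, (l + ‖R (b i)‖) ^ 2))) (isCompact_closedBall _ _) ?_
  intro x hx
  by_contra hne
  apply hx
  rw [mem_closedBall_zero_iff]
  apply Real.le_sqrt_of_sq_le
  have h1 : ‖x‖ ^ 2 = ∑ i, ‖pos x i‖ ^ 2 := by
    rw [EuclideanSpace.norm_sq_eq, Fintype.sum_prod_type]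
    refine Finset.sum_congr rfl fun i _ => ?_
    rw [EuclideanSpace.norm_sq_eq]
    rfl
  rw [h1]
  refine Finset.sum_le_sum fun i _ => ?_
  refine pow_le_pow_left₀ (norm_nonneg _) ?_ 2
  have h2 := (near_iff hl x i _).mp (lt_of_Phi_ne hl hne i)
  have h3 : ‖pos x i‖ ≤ ‖pos x i - R (b i)‖ + ‖R (b i)‖ := by
    have := norm_add_le (pos x i - R (b i)) (R (b i))
    simpa using this
  linarith

/-- derivative in direction `(i, c)` -/
noncomputable def dPhi (a l s : ℝ) (R : Fin K → Space) (b : Fin M → Fin K) (i : Fin M) (c : Fin 3)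
    (x : Config M) : ℝ := fderiv ℝ (Phi a l s R b) x (ee i c)

lemma dPhi_contDiff {a l s : ℝ} (hs : 0 < s) (R : Fin K → Space) (b : Fin M → Fin K) (i : Fin M)
    (c : Fin 3) : ContDiff ℝ ∞ (dPhi (M := M) a l s R b i c) := by
  unfold dPhi
  exact ((Phi_contDiff hs R b).fderiv_right (m := ∞) (by simp)).clm_apply contDiff_const

lemma dPhi_zero {a l s : ℝ} {R : Fin K → Space} {b : Fin M → Fin K} (i : Fin M)
    (c : Fin 3) {x : Config M} (h : Phi a l s R b x = 0) : dPhi a l s R b i c x = 0 := by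
  unfold dPhi
  have : IsLocalMin (Phi a l s R b) x := by
    refine Filter.Eventually.of_forall fun y => ?_
    rw [h]
    exact Phi_nonneg _ _ _ _ _ _
  rw [this.fderiv_eq_zero]
  rfl

/-- value of the derivative -/
lemma dPhi_eq {a l s : ℝ} (hl : 0 < l) (hs : 0 < s) (R : Fin K → Space) (b : Fin M → Fin K)
    (i : Fin M) (c : Fin 3) {x : Config M} (h : Phi a l s R b x ≠ 0) :
    dPhi a l s R b i c x = -((WithLp.ofLp x (i, c) - WithLp.ofLp (R (b i)) c) *
      GG a l s (qq x i (R (b i)))) * Phi a l s R b x := by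
  have hd : HasLineDerivAt ℝ (Phi a l s R b) (dPhi a l s R b i c x) x (ee i c) := by
    have h1 : DifferentiableAt ℝ (Phi a l s R b) x :=
      ((Phi_contDiff hs R b).differentiable (by simp)) x
    exact h1.hasFDerivAt.hasLineDerivAt (ee i c)
  have hd2 : HasLineDerivAt ℝ (Phi a l s R b) (-((WithLp.ofLp x (i, c) -
      WithLp.ofLp (R (b i)) c) * GG a l s (qq x i (R (b i)))) * Phi a l s R b x) x (ee i c) := by
    unfold HasLineDerivAt
    set u := WithLp.ofLp x (i, c) - WithLp.ofLp (R (b i)) c with hu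
    set q := qq x i (R (b i)) with hq
    set rest := ∏ j ∈ Finset.univ.erase i, uu a l s (qq x j (R (b j))) with hrest
    have e1 : (fun t : ℝ => Phi a l s R b (x + t • ee i c)) = fun t : ℝ =>
        uu a l s (q + 2 * t * u + t ^ 2) * rest := by
      funext t
      unfold Phi
      rw [← Finset.mul_prod_erase _ _ (Finset.mem_univ i), qq_add]
      congr 1
      refine Finset.prod_congr rfl fun j hj => ?_
      rw [qq_add_ne _ _ _ _ _ _ (Finset.ne_of_mem_erase hj)]
    have e2 : Phi a l s R b x = uu a l s q * rest := by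
      unfold Phi
      rw [← Finset.mul_prod_erase _ _ (Finset.mem_univ i)]
    rw [e1, e2]
    have h1 : HasDerivAt (fun t : ℝ => q + 2 * t * u + t ^ 2) (2 * u) 0 := by
      have a1 : HasDerivAt (fun t : ℝ => 2 * t * u) (2 * 1 * u) 0 :=
        ((hasDerivAt_id (0 : ℝ)).const_mul 2).mul_const u
      have a2 : HasDerivAt (fun t : ℝ => t ^ 2) ((2 : ℕ) * (0 : ℝ) ^ (2 - 1)) 0 :=
        hasDerivAt_pow 2 0
      have a3 := (a1.const_add q).add a2
      refine a3.congr_deriv ?_
      norm_num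
    have h2 : HasDerivAt (uu a l s) (-(1 / 2) * GG a l s q * uu a l s q) (q + 2 * 0 * u + 0 ^ 2) := by
      have := uu_hasDerivAt (a := a) hl hs (qq_nonneg x i (R (b i))) (lt_of_Phi_ne hl h i)
      simpa using this
    have h3 := (HasDerivAt.comp (0 : ℝ) (h₂ := uu a l s)
      (h := fun t : ℝ => q + 2 * t * u + t ^ 2) h2 h1).mul_const rest
    refine h3.congr_deriv ?_
    ring
  exact hd.unique hd2

/-- second derivative in direction `(i, c)` -/
noncomputable def ddPhi (a l s : ℝ) (R : Fin K → Space) (b : Fin M → Fin K) (i : Fin M)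
    (c : Fin 3) (x : Config M) : ℝ := fderiv ℝ (dPhi a l s R b i c) x (ee i c)

lemma ddPhi_eq {a l s : ℝ} (hl : 0 < l) (hs : 0 < s) (R : Fin K → Space) (b : Fin M → Fin K)
    (i : Fin M) (c : Fin 3) {x : Config M} (h : Phi a l s R b x ≠ 0) :
    ddPhi a l s R b i c x = -(GG a l s (qq x i (R (b i))) +
      2 * (WithLp.ofLp x (i, c) - WithLp.ofLp (R (b i)) c) ^ 2 * GG' a l s (qq x i (R (b i))) -
      (WithLp.ofLp x (i, c) - WithLp.ofLp (R (b i)) c) ^ 2 *
        GG a l s (qq x i (R (b i))) ^ 2) * Phi a l s R b x := by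
  have hd : HasLineDerivAt ℝ (dPhi a l s R b i c) (ddPhi a l s R b i c x) x (ee i c) := by
    have h1 : DifferentiableAt ℝ (dPhi a l s R b i c) x :=
      ((dPhi_contDiff hs R b i c).differentiable (by simp)) x
    exact h1.hasFDerivAt.hasLineDerivAt (ee i c)
  have hdP : HasLineDerivAt ℝ (Phi a l s R b) (dPhi a l s R b i c x) x (ee i c) := by
    have h1 : DifferentiableAt ℝ (Phi a l s R b) x :=
      ((Phi_contDiff hs R b).differentiable (by simp)) x
    exact h1.hasFDerivAt.hasLineDerivAt (ee i c)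
  have hne : ∀ᶠ t : ℝ in nhds 0, Phi a l s R b (x + t • ee i c) ≠ 0 := by
    have hcont : Continuous (fun t : ℝ => Phi a l s R b (x + t • ee i c)) := by
      have := (Phi_contDiff (M := M) (a := a) (l := l) hs R b).continuous
      fun_prop
    have := hcont.continuousAt (x := 0)
    apply this.eventually_ne
    simpa using h
  set u := WithLp.ofLp x (i, c) - WithLp.ofLp (R (b i)) c with hu
  set q := qq x i (R (b i)) with hq
  have hev : (fun t : ℝ => dPhi a l s R b i c (x + t • ee i c)) =ᶠ[nhds 0] fun t : ℝ =>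
      -((u + t) * GG a l s (q + 2 * t * u + t ^ 2)) * Phi a l s R b (x + t • ee i c) := by
    filter_upwards [hne] with t ht
    rw [dPhi_eq hl hs R b i c ht, qq_add, add_ee]
    simp only [if_true]
    congr 3
    rw [hu]
    ring
  have h1 : HasDerivAt (fun t : ℝ => q + 2 * t * u + t ^ 2) (2 * u) 0 := by
    have a1 : HasDerivAt (fun t : ℝ => 2 * t * u) (2 * 1 * u) 0 :=
      ((hasDerivAt_id (0 : ℝ)).const_mul 2).mul_const u
    have a2 : HasDerivAt (fun t : ℝ => t ^ 2) ((2 : ℕ) * (0 : ℝ) ^ (2 - 1)) 0 :=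
      hasDerivAt_pow 2 0
    have a3 := (a1.const_add q).add a2
    refine a3.congr_deriv ?_
    norm_num
  have h2 : HasDerivAt (GG a l s) (GG' a l s q) (q + 2 * 0 * u + 0 ^ 2) := by
    have := GG_hasDerivAt (a := a) hs (qq_nonneg x i (R (b i))) (lt_of_Phi_ne hl h i)
    simpa using this
  have h3 := HasDerivAt.comp (0 : ℝ) (h₂ := GG a l s)
    (h := fun t : ℝ => q + 2 * t * u + t ^ 2) h2 h1
  have h4 : HasDerivAt (fun t : ℝ => u + t) 1 0 := by
    simpa using (hasDerivAt_id (0 : ℝ)).const_add u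
  have h5 : HasDerivAt (fun t : ℝ => Phi a l s R b (x + t • ee i c)) (dPhi a l s R b i c x) 0 := hdP
  have h6 := ((h4.mul h3).neg.mul h5).congr_of_eventuallyEq hev
  have h7 : HasDerivAt (fun t : ℝ => dPhi a l s R b i c (x + t • ee i c))
    (ddPhi a l s R b i c x) 0 := hd
  have h8 := h7.unique h6
  rw [h8, dPhi_eq hl hs R b i c h]
  simp only [Function.comp_apply, Pi.neg_apply, Pi.mul_apply]
  have z1 : q + 2 * 0 * u + 0 ^ 2 = q := by ring
  rw [z1]
  have z2 : x + (0 : ℝ) • ee i c = x := by simp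
  rw [z2]
  ring

end Pool.Agent.Helper67.Dil
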